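import Pool.Agent.N970.AVP.Cls
import Pool.Agent.N809.JT.Dnf
import Pool.Agent.N809.JT.Inpf
import Pool.Agent.N809.P17.Tow
import Pool.Agent.N809.SN.Mul3
import Pool.Agent.N809.SN.Neg

/-!
# The curves of conductors 15, 17 and 21 over multiquadratic fields

The curves number `0, 1, 2` are `y² = x (x + 9) (x - 16)`, `y² = x (x + 1) (x - 16)`, `y² = x (x - 9) (x + 7)`
of conductors `15, 17, 21`; they have no complex multiplication and no two of them are isogenous. `E_{j, m}` is
the twist by `m` of the curve number `j`. We consider the multiquadratic fields `K = ℚ(√d_1, …, √d_r)` of any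
degree `2 ^ r`, with any signs and any ramification. Call `E_{j, m}` good over `K` if the `2 ^ r` curves
`E_{j, m d_T}` over `ℚ`, `d_T` the products of the `d_i`, have finitely many rational points and no element of
order two in the Tate-Shafarevich group.

(1) If `E_{j, m}` is good over `K`, then `E_{j, m}(K)` is finite, `L(E_{j, m}/K, s)` extends to an entire
function whose order at `s = 1` is the rank of `E_{j, m}(K)`, both being zero, and the 2-primary part of
`Ш(E_{j, m}/K)` is finite and killed by `2 ^ r`.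
(2) Some twist of the curve number `1` is good over a quadratic field if and only if the field is real or `17` is
not split in it, and over a multiquadratic field, of any degree, of discriminant prime to `34`, if and only if the
field is real or the Frobenius at `17` is the complex conjugation, that is `17` splits completely in the maximal
real subfield and not in the field; and then infinitely many twists are good.
(3) Let `η = ∏ (1 - 2^{-i})`, `θ = ∏ (1 - 2^{-(2i-1)})`. The natural densities of the quadratic fields `ℚ(√D)`,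
among all quadratic fields, real and imaginary, ordered by the absolute value of the discriminant, over which the
curves number `0`; `1`; `2`; `0` and `1`; `0` and `2`; `1` and `2`; all three; at least one of the three are good,
are `η/2`, `θ/2`, `137/256 η`, `433/1728 η θ`, `443/3072 η`, `2461/9216 η θ`, `8065/110592 η θ`,
`2737/3072 η + θ/2 - 16393/36864 η θ = 0.413…`.
(4) For an imaginary quadratic field in which `3` is not inert and `5` is not split the curve number `0`, and for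
an imaginary quadratic field in which `3` is not split and `7` is not inert the curve number `2`, is good if and
only if the field has no ideal class of order four.
(5) Let `q_1 < q_2 < ⋯ < q_r` be primes which are `3` modulo `4` and inert in `ℚ(√17)` and such that
`q_j` is a square modulo `q_i` for `i < j`. Then the curve number `1` is good over `ℚ(√-q_1, …, √-q_r)`. There is
an infinite sequence of such primes.

Joint work of helpers 809, 970, 877, 963, 975, 972, 916, 969 and others: the theorems over `ℚ` are those of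
`Results/MP_696deb_nt`; the passage to the fields follows helpers 856 and 970.
-/

set_option autoImplicit false

open NumberField IsDedekindDomain Filter Topology

namespace Pool.Agent.Results.MP_1a91b9_nt.MultiquadraticThreeCurves

/-- the coefficients `a` of the equations `y² = x³ + a x + b` of the three curves -/
def coefA : Fin 3 → ℤ := ![-12987, -91, -5211]

/-- the coefficients `b` of the equations `y² = x³ + a x + b` of the three curves -/
def coefB : Fin 3 → ℤ := ![-263466, -330, -31050]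

/-- the coefficient `a` of the twist by `m` of the curve number `j` -/
def A (j : Fin 3) (m : ℤ) : ℤ := coefA j * m ^ 2

/-- the coefficient `b` of the twist by `m` of the curve number `j` -/
def B (j : Fin 3) (m : ℤ) : ℤ := coefB j * m ^ 3

/-- the twist `E_{j, m}` by `m` of the curve number `j`, over the field `K` -/
def E (K : Type) [Field K] (j : Fin 3) (m : ℤ) : WeierstrassCurve K :=
  { a₁ := 0, a₂ := 0, a₃ := 0, a₄ := (A j m : K), a₆ := (B j m : K) }

/-- `E_{j, m}(ℚ)` is finite and `Ш(E_{j, m}/ℚ)` has no element of order two -/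
def RankZeroShaTwo (j : Fin 3) (m : ℤ) : Prop :=
  Finite (E ℚ j m).toAffine.Point ∧ ∀ x : Pool.Agent.TH841.NF.D.Sha (E ℚ j m), 2 • x = 0 → x = 0

/-- `ℚ(√d_1, …, √d_r)` has degree `2 ^ r` -/
def Independent {r : ℕ} (d : Fin r → ℤ) : Prop :=
  ∀ T : Finset (Fin r), T.Nonempty → ¬ IsSquare (∏ i ∈ T, d i)

/-- `K = ℚ(√d_1, …, √d_r)` -/
def IsMultiquadratic {r : ℕ} (d : Fin r → ℤ) (K : Type) [Field K] [NumberField K] : Prop :=
  ∃ x : Fin r → K, (∀ i, x i ^ 2 = (d i : K)) ∧ IntermediateField.adjoin ℚ (Set.range x) = ⊤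

/-- `E_{j, m}` is good over `K = ℚ(√d_1, …, √d_r)`: the curves `E_{j, m ∏_{i ∈ T} d_i}` over `ℚ`, which
are the factors of the Weil restriction of `E_{j, m}` from `K` to `ℚ`, have finitely many rational points
and no element of order two in the Tate-Shafarevich group -/
def Good {r : ℕ} (d : Fin r → ℤ) (j : Fin 3) (m : ℤ) : Prop :=
  ∀ T : Finset (Fin r), RankZeroShaTwo j (m * ∏ i ∈ T, d i)

/-- the number `q_v` of elements of the residue field of a finite place `v` of `K` -/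
noncomputable def qv (K : Type) [Field K] (v : HeightOneSpectrum (𝓞 K)) : ℕ :=
  Nat.card (𝓞 K ⧸ v.asIdeal)

/-- `a_v = q_v + 1 - #E(k_v)` for `E : y² = x³ + a x + b`, that is `q_v` minus the number of affine
points over the residue field -/
noncomputable def av (K : Type) [Field K] (a b : ℤ) (v : HeightOneSpectrum (𝓞 K)) : ℤ :=
  (qv K v : ℤ) - Nat.card {z : (𝓞 K ⧸ v.asIdeal) × (𝓞 K ⧸ v.asIdeal) //
    z.2 ^ 2 = z.1 ^ 3 + (a : 𝓞 K ⧸ v.asIdeal) * z.1 + (b : 𝓞 K ⧸ v.asIdeal)}

open Classical in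
/-- `F` is entire and is, for `Re s > 3/2`, the `L`-function of `E_{j, m}` over `K` without the Euler
factors at the places dividing `3570 m D`, where `3570 = 2 · 3 · 5 · 7 · 17` -/
def IsL (K : Type) [Field K] (j : Fin 3) (m D : ℤ) (F : ℂ → ℂ) : Prop :=
  Differentiable ℂ F ∧ ∀ s : ℂ, (3 : ℝ) / 2 < s.re →
    HasProd (fun v : HeightOneSpectrum (𝓞 K) =>
      if ((3570 * m * D : ℤ) : 𝓞 K) ∈ v.asIdeal then 1 else
        (1 - (av K (A j m) (B j m) v : ℂ) * (qv K v : ℂ) ^ (-s) +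
          (qv K v : ℂ) ^ (1 - 2 * s))⁻¹) (F s)

open Classical in
/-- the rank conjecture for `E_{j, m}` over `K` with the rank and the order zero, and the finiteness of
the 2-primary part of `Ш(E_{j, m}/K)`, which is killed by `2 ^ r`; the `L`-function is without the Euler
factors at the places dividing `3570 m D` -/
def BSDZero (K : Type) [Field K] [NumberField K] (j : Fin 3) (m D : ℤ) (r : ℕ) : Prop :=
  Finite (E K j m).toAffine.Point ∧
  (∃ F : ℂ → ℂ, IsL K j m D F) ∧
  (∀ F : ℂ → ℂ, IsL K j m D F →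
    analyticOrderAt F 1 = (Module.finrank ℤ (E K j m).toAffine.Point : ℕ∞)) ∧
  Module.finrank ℤ (E K j m).toAffine.Point = 0 ∧
  {y : Pool.Agent.TH841.NF.D.Sha (E K j m) | ∃ k : ℕ, (2 ^ k : ℕ) • y = 0}.Finite ∧
  ∀ (k : ℕ) (y : Pool.Agent.TH841.NF.D.Sha (E K j m)), (2 ^ k : ℕ) • y = 0 → (2 ^ r : ℕ) • y = 0

/-- `D` is a fundamental discriminant (`1` included) -/
def Fund (D : ℤ) : Prop := (Squarefree D ∧ D % 4 = 1) ∨
  ∃ m : ℤ, D = 4 * m ∧ Squarefree m ∧ (m % 4 = 2 ∨ m % 4 = 3)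

open Classical in
/-- the number of the quadratic fields with a discriminant `D`, `|D| ≤ X`, which has the property `P` -/
noncomputable def countQuad (P : ℤ → Prop) (X : ℕ) : ℕ :=
  ((Finset.Icc (-(X : ℤ)) X).filter fun D => Fund D ∧ D ≠ 1 ∧ P D).card

/-- the natural density of the quadratic fields whose discriminant has the property `P`, ordered by the
absolute value of the discriminant, is `ρ` -/
def HasProportion (P : ℤ → Prop) (ρ : ℝ) : Prop :=
  Tendsto (fun X : ℕ => (countQuad P X : ℝ) / (countQuad (fun _ => True) X : ℝ)) atTop (𝓝 ρ)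

/-- the curve number `j` is good over the quadratic field of discriminant `D` -/
def GoodOver (j : Fin 3) (D : ℤ) : Prop := Good (fun _ : Fin 1 => D) j 1

/-- the local conditions on the quadratic field of discriminant `D` in the class group criterion -/
def Allowed : Fin 3 → ℤ → Prop :=
  ![fun D => D % 3 ≠ 2 ∧ ¬ (D % 5 = 1 ∨ D % 5 = 4), fun _ => False,
    fun D => D % 3 ≠ 1 ∧ ¬ (D % 7 = 3 ∨ D % 7 = 5 ∨ D % 7 = 6)]

/-- the ideal class group of `ℚ(√D)` has no element of order four -/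
def NoOrderFour (D : ℤ) : Prop :=
  ∀ (K : Type) [Field K] [NumberField K], Module.finrank ℚ K = 2 →
    (∃ s : K, s ^ 2 = (D : K)) →
    ∀ c : ClassGroup (NumberField.RingOfIntegers K), c ^ 4 = 1 → c ^ 2 = 1

/-- the prime numbers of the towers: a set of primes which are `3` modulo `4`, inert in `ℚ(√17)` and such
that a larger one is a square modulo a smaller one -/
def TowerPrimes (q : ℕ → ℕ) : Prop :=
  StrictMono q ∧ (∀ n, (q n).Prime ∧ q n % 4 = 3 ∧ jacobiSym 17 (q n) = -1) ∧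
    ∀ m n, m < n → jacobiSym (q n) (q m) = 1

section proof

open Pool.Agent.N919.BS (NS NF Rt17)
open Pool.Agent.N963.JT (R15 R17)
open Pool.Agent.N809.JT (R21 Inp Tot)

theorem isL_iff (K : Type) [Field K] (j : Fin 3) (m D : ℤ) (F : ℂ → ℂ) :
    IsL K j m D F ↔ Pool.Agent.N970.AVP.IsL K (fun _ : Unit => j) (fun _ => m) D F := by
  unfold IsL Pool.Agent.N970.AVP.IsL
  refine and_congr Iff.rfl (forall_congr' fun s => forall_congr' fun _ => ?_)
  have e0 : (3570 * (∏ _i : Unit, m) * D : ℤ) = 3570 * m * D := by simp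
  refine iff_of_eq (congrArg (fun f => HasProd f (F s)) (funext fun v => ?_))
  by_cases h : ((3570 * m * D : ℤ) : 𝓞 K) ∈ v.asIdeal
  · rw [if_pos h, if_pos (by rw [e0]; exact h)]
  · rw [if_neg h, if_neg (by rw [e0]; exact h), Finset.univ_unique, Finset.prod_singleton]
    rfl

theorem good_iff {r : ℕ} (d : Fin r → ℤ) (j : Fin 3) (m : ℤ) :
    Good d j m ↔ Pool.Agent.N970.AVP.Good d (fun _ : Unit => j) (fun _ => m) :=
  ⟨fun h _ => h, fun h => h ()⟩

theorem bsd {r : ℕ} {d : Fin r → ℤ} {j : Fin 3} {m : ℤ} (hm : m ≠ 0) (hind : Independent d)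
    (hg : Good d j m) (K : Type) [Field K] [NumberField K] (hK : IsMultiquadratic d K) :
    Module.finrank ℚ K = 2 ^ r ∧ BSDZero K j m (∏ i, d i) r := by
  classical
  obtain ⟨h1, h2, h3, ⟨F, h4⟩, h5, h6⟩ := Pool.Agent.N970.AVP.bsd (ι := Unit) hind (fun _ => hm)
    ((good_iff d j m).1 hg) K hK
  have hfin : Finite (E K j m).toAffine.Point := by
    have : Finite (Unit → (E K j m).toAffine.Point) := h2
    exact Finite.of_injective (fun P : (E K j m).toAffine.Point => fun _ : Unit => P)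
      fun P Q h => congrFun h ()
  have h0 : Module.finrank ℤ (E K j m).toAffine.Point = 0 :=
    Module.finrank_eq_zero_of_rank_eq_zero (rank_eq_zero_iff.2 fun _ =>
      ⟨(Nat.card (E K j m).toAffine.Point : ℤ), by exact_mod_cast Nat.card_pos.ne', by
        rw [natCast_zsmul]
        exact card_nsmul_eq_zero'⟩)
  refine ⟨h1, hfin, ⟨F, (isL_iff K j m _ F).2 h4⟩, fun G hG => ?_, h0, (h6 ()).1, (h6 ()).2⟩
  rw [h5 G ((isL_iff K j m _ G).1 hG), h3, h0]

theorem good_one (j : Fin 3) (D : ℤ) : GoodOver j D ↔ Pool.Agent.N970.AVP.RankZeroShaTwo j D :=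
  (good_iff _ j 1).trans (Pool.Agent.N970.AVP.good_pow D j)

theorem r0 (d : ℤ) : Pool.Agent.N970.AVP.RankZeroShaTwo 0 d ↔ R15 d :=
  Pool.Agent.N970.AVP.rz_iff 0 d

theorem r1 (d : ℤ) : Pool.Agent.N970.AVP.RankZeroShaTwo 1 d ↔ R17 d :=
  Pool.Agent.N970.AVP.rz_iff 1 d

theorem r2 (d : ℤ) : Pool.Agent.N970.AVP.RankZeroShaTwo 2 d ↔ R21 d :=
  Pool.Agent.N970.AVP.rz_iff 2 d

theorem g0 {D : ℤ} (h : Fund D) : GoodOver 0 D ↔ R15 (Pool.Agent.N919.BS.core D) :=
  ((good_one 0 D).trans (Pool.Agent.N970.AVP.rz_core 0 h)).trans (r0 _)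

theorem g1 {D : ℤ} (h : Fund D) : GoodOver 1 D ↔ R17 (Pool.Agent.N919.BS.core D) :=
  ((good_one 1 D).trans (Pool.Agent.N970.AVP.rz_core 1 h)).trans (r1 _)

theorem g2 {D : ℤ} (h : Fund D) : GoodOver 2 D ↔ R21 (Pool.Agent.N919.BS.core D) :=
  ((good_one 2 D).trans (Pool.Agent.N970.AVP.rz_core 2 h)).trans (r2 _)

theorem prop_of {P Q : ℤ → Prop} {ρ : ℝ} (h : ∀ D, Fund D → (P D ↔ Q (Pool.Agent.N919.BS.core D)))
    (hQ : Tendsto (fun X : ℕ => (NF Q X : ℝ) / (NF (fun _ => True) X : ℝ)) atTop (𝓝 ρ)) :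
    HasProportion P ρ := Pool.Agent.N970.AVP.lim_quad h hQ

theorem hasProd_eta : HasProd (fun i : ℕ => 1 - (1 / 2 : ℝ) ^ (i + 1)) Pool.Agent.N916.GB.eta := by
  have h : Multipliable fun i : ℕ => 1 + -((1 / 2 : ℝ) ^ (i + 1)) := by
    apply multipliable_one_add_of_summable
    have h1 : Summable fun i : ℕ => (1 / 2 : ℝ) ^ i * (1 / 2) :=
      (summable_geometric_of_lt_one (by norm_num) (by norm_num)).mul_right _
    refine h1.congr fun i => ?_
    rw [norm_neg, Real.norm_of_nonneg (by positivity), pow_succ]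
  have h3 := h.hasProd
  have e : (fun i : ℕ => 1 + -((1 / 2 : ℝ) ^ (i + 1))) = fun i : ℕ => 1 - (1 / 2 : ℝ) ^ (i + 1) := by
    funext i
    ring
  rw [e] at h3
  exact h3

theorem hasProd_c2 : HasProd (fun i : ℕ => 1 - (1 / 2 : ℝ) ^ (2 * i + 1)) Pool.Agent.Y703.CQ.c2 := by
  have h : Multipliable fun i : ℕ => 1 + -((1 / 2 : ℝ) ^ (2 * i + 1)) := by
    apply multipliable_one_add_of_summable
    have h1 : Summable fun i : ℕ => (1 / 4 : ℝ) ^ i * (1 / 2) :=
      (summable_geometric_of_lt_one (by norm_num) (by norm_num)).mul_right _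
    refine h1.congr fun i => ?_
    rw [norm_neg, Real.norm_of_nonneg (by positivity), pow_succ, pow_mul]
    norm_num
  have h3 := h.hasProd
  have e : (fun i : ℕ => 1 + -((1 / 2 : ℝ) ^ (2 * i + 1))) =
      fun i : ℕ => 1 - (1 / 2 : ℝ) ^ (2 * i + 1) := by
    funext i
    ring
  rw [e] at h3
  exact h3

theorem bound {η θ : ℝ} (h1 : 0.2887 < η) (h2 : η < 0.2889) (h3 : 0.4194 < θ) (h4 : θ < 0.4195) :
    0.413 < 2737 / 3072 * η + θ / 2 - 16393 / 36864 * (η * θ) := by
  nlinarith [mul_pos (sub_pos.2 h1) (sub_pos.2 h3), mul_pos (sub_pos.2 h1) (sub_pos.2 h4),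
    mul_pos (sub_pos.2 h2) (sub_pos.2 h3), mul_pos (sub_pos.2 h2) (sub_pos.2 h4)]

theorem rz1 (m : ℤ) : RankZeroShaTwo 1 m ↔ Pool.Agent.N875.X15.Fin2 (Pool.Agent.N875.P17.WS m) :=
  Pool.Agent.N970.AVP.rz_iff 1 m

open Pool.Agent.N809.P17 in
/-- the towers -/
theorem tower {q : ℕ → ℕ} (hq : TowerPrimes q) (r : ℕ) :
    Independent (fun i : Fin r => -(q i : ℤ)) ∧ Good (fun i : Fin r => -(q i : ℤ)) 1 1 := by
  classical
  obtain ⟨hmono, hpr, hsq⟩ := hq
  have hinj : Function.Injective fun i : Fin r => q i := fun i j h =>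
    Fin.ext (hmono.injective h)
  have hT : ∀ T : Finset (Fin r), Trn (T.image fun i : Fin r => q i) := by
    intro T
    refine ⟨?_, ?_, ?_, ?_⟩
    · intro p hp
      obtain ⟨i, -, rfl⟩ := Finset.mem_image.1 hp
      exact (hpr i).1
    · intro p hp
      obtain ⟨i, -, rfl⟩ := Finset.mem_image.1 hp
      exact (hpr i).2.1
    · intro p hp
      obtain ⟨i, -, rfl⟩ := Finset.mem_image.1 hp
      exact (hpr i).2.2
    · intro p hp p' hp' hlt
      obtain ⟨i, -, rfl⟩ := Finset.mem_image.1 hp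
      obtain ⟨j, -, rfl⟩ := Finset.mem_image.1 hp'
      exact hsq i j (hmono.lt_iff_lt.1 hlt)
  have hprod : ∀ T : Finset (Fin r), ∏ i ∈ T, (-(q i : ℤ)) = mT (T.image fun i : Fin r => q i) := by
    intro T
    unfold mT
    rw [Finset.prod_image fun i _ j _ h => hinj h]
  refine ⟨fun T hne hs => ?_, fun T => ?_⟩
  · rw [hprod T] at hs
    have h1 := mT_sqf (hT T)
    obtain ⟨a, ha⟩ := hs
    have h2 : IsUnit a := h1 a ⟨1, by rw [mul_one]; exact ha⟩
    have h3 : (mT (T.image fun i : Fin r => q i)).natAbs = 1 := by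
      rw [ha, Int.natAbs_mul, Int.isUnit_iff_natAbs_eq.1 h2]
    rw [mT_abs] at h3
    obtain ⟨i, hi⟩ := hne
    have h4 : q i ∣ 1 := by
      rw [← h3]
      exact Finset.dvd_prod_of_mem (fun p => p) (Finset.mem_image_of_mem (fun i : Fin r => q i) hi)
    exact (hpr i).1.one_lt.ne' (Nat.dvd_one.1 h4)
  · rw [one_mul, hprod T, rz1, Pool.Agent.N875.P17.fin2S_iff (mT_sqf (hT T))]
    exact T_Sg (hT T)

/-- good twists over a quadratic field -/
theorem good_two {d m : ℤ} (hm : Squarefree m) (hmd : Squarefree (m * d))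
    (h1 : Pool.Agent.N875.P17.Sg m) (h2 : Pool.Agent.N875.P17.Sg (m * d)) :
    Good (fun _ : Fin 1 => d) 1 m := by
  intro T
  rcases T.eq_empty_or_nonempty with hT | hT
  · rw [hT, Finset.prod_empty, mul_one, rz1, Pool.Agent.N875.P17.fin2S_iff hm]
    exact h1
  · have hT' : T = {0} := by
      obtain ⟨i, hi⟩ := hT
      ext j
      rw [Subsingleton.elim j i, Finset.mem_singleton]
      exact ⟨fun _ => Subsingleton.elim _ _, fun _ => hi⟩
    rw [hT', Finset.prod_singleton, rz1, Pool.Agent.N875.P17.fin2S_iff hmd]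
    exact h2

/-- every quadratic field -/
theorem every {d : ℤ} (hs : Squarefree d) (h : ¬ (d < 0 ∧ jacobiSym d 17 = 1)) (B : ℕ) :
    ∃ m : ℤ, Squarefree m ∧ (B : ℤ) < |m| ∧ Good (fun _ : Fin 1 => d) 1 m := by
  have h0 : d ≠ 0 := hs.ne_zero
  have ha : d.natAbs ≠ 0 := Int.natAbs_ne_zero.2 h0
  rcases lt_or_gt_of_ne h0 with h2 | h2
  · have h3 : jacobiSym d 17 ≠ 1 := fun h3 => h ⟨h2, h3⟩
    obtain ⟨k, k1, kB, k3, k4⟩ := Pool.Agent.N809.SN.exists_k d.natAbs
    have hkd : ¬ (k : ℤ) ∣ d := fun hd => by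
      have := Nat.le_of_dvd (Int.natAbs_pos.2 h0) (Int.natCast_dvd.1 hd)
      omega
    obtain ⟨t, ht, hc⟩ := Pool.Agent.N809.SN.neg hs h2 h3 k1 k3 k4 hkd
    obtain ⟨l, l1, lB, l2⟩ := Pool.Agent.N809.SN.dir
      (mul_ne_zero (by norm_num) (mul_ne_zero k1.ne_zero ha)) ht B
    obtain ⟨h4, h5, h6, h7⟩ := hc l l1 l2
    have e : -(l : ℤ) * (-(k : ℤ) * d) = -(l : ℤ) * -(k : ℤ) * d := by ring
    rw [e] at h5 h7
    refine ⟨-(l : ℤ) * -(k : ℤ), h4, ?_, good_two h4 h5 h6 h7⟩
    have hk : (1 : ℤ) ≤ k := by exact_mod_cast k1.one_le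
    have hl : (B : ℤ) < l := by exact_mod_cast lB
    have e2 : -(l : ℤ) * -(k : ℤ) = l * k := by ring
    rw [e2, abs_of_nonneg (by positivity)]
    nlinarith
  · by_cases h3 : jacobiSym d 17 = -1
    · obtain ⟨t, ht, hc⟩ := Pool.Agent.N809.SN.pos2 hs h2 h3
      obtain ⟨l, l1, lB, l2⟩ := Pool.Agent.N809.SN.dir (mul_ne_zero (by norm_num) ha) ht B
      obtain ⟨h4, h5, h6, h7⟩ := hc l l1 l2
      have e : -(l : ℤ) * (17 * d) = -(l : ℤ) * 17 * d := by ring
      rw [e] at h5 h7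
      refine ⟨-(l : ℤ) * 17, h4, ?_, good_two h4 h5 h6 h7⟩
      have hl : (B : ℤ) < l := by exact_mod_cast lB
      rw [neg_mul, abs_neg, abs_of_nonneg (by positivity)]
      linarith
    · obtain ⟨t, ht, hc⟩ := Pool.Agent.N809.SN.pos1 hs h2 h3
      obtain ⟨l, l1, lB, l2⟩ := Pool.Agent.N809.SN.dir (mul_ne_zero (by norm_num) ha) ht B
      obtain ⟨h4, h5, h6, h7⟩ := hc l l1 l2
      refine ⟨-(l : ℤ), h4, ?_, good_two h4 h5 h6 h7⟩
      have hl : (B : ℤ) < l := by exact_mod_cast lB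
      rw [abs_neg, abs_of_nonneg (by positivity)]
      exact hl

/-- good twists over multiquadratic fields -/
theorem good_multi {r : ℕ} (d : Fin r → ℤ) (hd : ∀ i, d i % 4 = 1)
    (h : (∀ i, 0 < d i ∧ ¬ (17 : ℤ) ∣ d i) ∨ ∀ i, jacobiSym (d i) 17 = (d i).sign) (B : ℕ) :
    ∃ m : ℤ, Squarefree m ∧ (B : ℤ) < |m| ∧ Good d 1 m := by
  have key : ∃ m : ℤ, Squarefree m ∧ (B : ℤ) < |m| ∧ ∀ T : Finset (Fin r), ∃ D k : ℤ,
      D ≠ 0 ∧ k ≠ 0 ∧ ∏ i ∈ T, d i = D * k ^ 2 ∧ Squarefree (m * D) ∧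
        Pool.Agent.N875.P17.Sg (m * D) := by
    rcases h with h | h
    · exact Pool.Agent.N809.SN.prod_ex3 d (fun i => ⟨(h i).1, hd i, (h i).2⟩) B
    · exact Pool.Agent.N809.SN.prod_ex2 d (fun i h0 => by
        have := hd i
        rw [h0] at this
        norm_num at this) (fun i => ⟨hd i, h i⟩) B
  obtain ⟨m, h1, h2, h3⟩ := key
  refine ⟨m, h1, h2, fun T => ?_⟩
  obtain ⟨D, k, hD, hk, he, hs, hS⟩ := h3 T
  have e1 : m * ∏ i ∈ T, d i = m * D * k ^ 2 := by rw [he]; ring
  rw [e1]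
  refine (Pool.Agent.N970.AVP.rz_scale 1 hs.ne_zero hk).2 ?_
  exact (rz1 (m * D)).2 ((Pool.Agent.N875.P17.fin2S_iff hs).2 hS)

/-- the obstruction by the signs -/
theorem none_good {r : ℕ} (d : Fin r → ℤ) (h17 : ∀ i, ¬ (17 : ℤ) ∣ d i) {m : ℤ} (hm : m ≠ 0)
    (hg : Good d 1 m) : (∀ i, 0 < d i) ∨ ∀ i, jacobiSym (d i) 17 = (d i).sign := by
  have rt : ∀ {n k : ℤ}, Squarefree n → k ≠ 0 → RankZeroShaTwo 1 (n * k ^ 2) →
      Pool.Agent.N919.BS.Rt17 n := fun {n k} hn hk h =>
    ((Pool.Agent.N809.P17.fin2_all hn).1 ((rz1 n).1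
      ((Pool.Agent.N970.AVP.rz_scale 1 hn.ne_zero hk).1 h))).1
  obtain ⟨a, k, ha, hk, he⟩ := Pool.Agent.N809.SN.sqf_part hm
  have h0 : RankZeroShaTwo 1 (a * k ^ 2) := by
    rw [← he]
    have := hg ∅
    rwa [Finset.prod_empty, mul_one] at this
  have ra := rt ha hk h0
  have key : ∀ i, (¬ (17 : ℤ) ∣ a → jacobiSym (d i) 17 = (d i).sign) ∧ ((17 : ℤ) ∣ a → 0 < d i) := by
    intro i
    have hdi : d i ≠ 0 := by
      intro h
      exact h17 i (by rw [h]; exact dvd_zero _)
    obtain ⟨n, l, hn, hl, he'⟩ := Pool.Agent.N809.SN.sqf_part (mul_ne_zero hm hdi)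
    have h1 : RankZeroShaTwo 1 (n * l ^ 2) := by
      rw [← he']
      have := hg {i}
      rwa [Finset.prod_singleton] at this
    exact Pool.Agent.N809.SN.obst2 (h17 i) ha hn (Pool.Agent.N809.SN.sq_of hk he he') ra (rt hn hl h1)
  by_cases h : (17 : ℤ) ∣ a
  · exact Or.inl fun i => (key i).2 h
  · exact Or.inr fun i => (key i).1 h

end proof

/-- **The curves of conductors 15, 17, 21 over multiquadratic fields.** -/
theorem result :
    -- the rank conjecture over all multiquadratic fields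
    (∀ (r : ℕ) (d : Fin r → ℤ) (j : Fin 3) (m : ℤ), m ≠ 0 → Independent d → Good d j m →
      ∀ (K : Type) [Field K] [NumberField K], IsMultiquadratic d K →
        Module.finrank ℚ K = 2 ^ r ∧ BSDZero K j m (∏ i, d i) r) ∧
    -- every quadratic field with the exception of the imaginary ones in which `17` is split
    (∀ d : ℤ, Squarefree d → d ≠ 1 → ¬ (d < 0 ∧ jacobiSym d 17 = 1) → ∀ B : ℕ,
      ∃ m : ℤ, Squarefree m ∧ (B : ℤ) < |m| ∧ Good (fun _ : Fin 1 => d) 1 m) ∧
    -- every multiquadratic field of discriminant prime to `34` which is real or in which the complex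
    -- conjugation is the Frobenius at `17`
    (∀ (r : ℕ) (d : Fin r → ℤ), (∀ i, d i % 4 = 1) →
      ((∀ i, 0 < d i ∧ ¬ (17 : ℤ) ∣ d i) ∨ ∀ i, jacobiSym (d i) 17 = (d i).sign) → ∀ B : ℕ,
      ∃ m : ℤ, Squarefree m ∧ (B : ℤ) < |m| ∧ Good d 1 m) ∧
    -- none over the other quadratic fields and over the other multiquadratic fields unramified at `17`
    (∀ (r : ℕ) (d : Fin r → ℤ), (∀ i, ¬ (17 : ℤ) ∣ d i) → ∀ m : ℤ, m ≠ 0 → Good d 1 m →
      (∀ i, 0 < d i) ∨ ∀ i, jacobiSym (d i) 17 = (d i).sign) ∧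
    -- the quadratic fields
    (∃ η θ : ℝ, HasProd (fun i : ℕ => 1 - (1 / 2 : ℝ) ^ (i + 1)) η ∧ 0.2887 < η ∧ η < 0.2889 ∧
      HasProd (fun i : ℕ => 1 - (1 / 2 : ℝ) ^ (2 * i + 1)) θ ∧ 0.4194 < θ ∧ θ < 0.4195 ∧
      HasProportion (GoodOver 0) (η / 2) ∧
      HasProportion (GoodOver 1) (θ / 2) ∧
      HasProportion (GoodOver 2) (137 / 256 * η) ∧
      HasProportion (fun D => GoodOver 0 D ∧ GoodOver 1 D) (433 / 1728 * (η * θ)) ∧
      HasProportion (fun D => GoodOver 0 D ∧ GoodOver 2 D) (443 / 3072 * η) ∧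
      HasProportion (fun D => GoodOver 1 D ∧ GoodOver 2 D) (2461 / 9216 * (η * θ)) ∧
      HasProportion (fun D => GoodOver 0 D ∧ GoodOver 1 D ∧ GoodOver 2 D)
        (8065 / 110592 * (η * θ)) ∧
      HasProportion (fun D => GoodOver 0 D ∨ GoodOver 1 D ∨ GoodOver 2 D)
        (2737 / 3072 * η + θ / 2 - 16393 / 36864 * (η * θ)) ∧
      0.413 < 2737 / 3072 * η + θ / 2 - 16393 / 36864 * (η * θ)) ∧
    -- ideal classes of order four
    (∀ (j : Fin 3) (D : ℤ), Fund D → D < 0 → Allowed j D → (GoodOver j D ↔ NoOrderFour D)) ∧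
    -- the towers
    (∃ q : ℕ → ℕ, TowerPrimes q) ∧
    ∀ q : ℕ → ℕ, TowerPrimes q → ∀ r : ℕ, Independent (fun i : Fin r => -(q i : ℤ)) ∧
      Good (fun i : Fin r => -(q i : ℤ)) 1 1 := by
  have H := Pool.Agent.N809.JT.inp
  have TF := Pool.Agent.N809.JT.tot_fd H Pool.Agent.N809.JT.dn_nf
  obtain ⟨-, -, -, hb1, hb2⟩ := Pool.Agent.Y948.CQ.t_C2
  have he := Pool.Agent.N916.GB.eta_bounds
  refine ⟨fun r d j m hm hind hg K _ _ hK => bsd hm hind hg K hK, fun d hs _ h B => every hs h B,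
    fun r d hd h B => good_multi d hd h B, fun r d h17 m hm hg => none_good d h17 hm hg,
    ⟨Pool.Agent.N916.GB.eta, Pool.Agent.Y703.CQ.c2, hasProd_eta, he.1, he.2, hasProd_c2, hb1, hb2,
      prop_of (fun D h => g0 h) TF.t15, prop_of (fun D h => g1 h) TF.t17,
      prop_of (fun D h => g2 h) TF.t21,
      prop_of (Q := fun d => Pool.Agent.N963.JT.R15 d ∧ Pool.Agent.N963.JT.R17 d) (fun D h => and_congr (g0 h) (g1 h)) TF.t1517,
      prop_of (Q := fun d => Pool.Agent.N963.JT.R15 d ∧ Pool.Agent.N809.JT.R21 d) (fun D h => and_congr (g0 h) (g2 h)) TF.t1521,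
      prop_of (Q := fun d => Pool.Agent.N963.JT.R17 d ∧ Pool.Agent.N809.JT.R21 d) (fun D h => and_congr (g1 h) (g2 h)) TF.t1721,
      prop_of (Q := fun d => Pool.Agent.N963.JT.R15 d ∧ Pool.Agent.N963.JT.R17 d ∧ Pool.Agent.N809.JT.R21 d)
        (fun D h => and_congr (g0 h) (and_congr (g1 h) (g2 h))) TF.t3,
      prop_of (Q := fun d => Pool.Agent.N963.JT.R15 d ∨ Pool.Agent.N963.JT.R17 d ∨ Pool.Agent.N809.JT.R21 d)
        (fun D h => or_congr (g0 h) (or_congr (g1 h) (g2 h))) TF.or,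
      bound he.1 he.2 hb1 hb2⟩, fun j D hD h0 ha => ?_,
    Pool.Agent.N809.P17.exists_seq, fun q hq r => tower hq r⟩
  exact ((good_iff _ j 1).trans (Pool.Agent.N970.AVP.good_class (ι := Unit) (j := fun _ => j) hD h0
    fun _ => ha))

end Pool.Agent.Results.MP_1a91b9_nt.MultiquadraticThreeCurves
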