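import Pool.Agent.Results.MP_cd906c_nt.ExactDensityTotallyReal
import Pool.Agent.N869.ZE.A.Fin

/-!
# Pairs of a curve without complex multiplication and a multiquadratic field: almost every conductor

`E_m` is the quadratic twist by `m` of the modular curve `X_0(15)`, a semistable curve over `ℚ` without
complex multiplication. Let `r ≥ 2`. Here both the curve `E_{-n}`, `n ≡ 23, 47 mod 60` squarefree, and the
totally real field `F = ℚ(√d_1, …, √d_r)` of degree `2 ^ r` vary, where the `d_i > 0` are
squarefree and prime to `n`, `d_i ≡ 1 mod 12`, `d_i ≡ ± 1 mod 5` (so that `2` is unramified and `3` and `5`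
split in `F`). We fix the total conductor `f`, that is, the set of the primes which divide `n` or some
`d_i`, and consider the finitely many pairs `(E_{-n}, F)` with this total conductor.

* For ALMOST EVERY FIXED `f` (natural density one among the squarefree numbers prime to `30`) the
  proportion of the pairs of total conductor exactly `f` for which `E_{-n}` is good over `F` is as close as we
  like to `η ^ [F : ℚ]`, `η = (1 - 1/2) (1 - 1/4) (1 - 1/8) ⋯ = 0.2888…`; the `2 ^ r` conditions on the
  twists of `E_{-n}` over `ℚ` by the `d_T = ∏_{i ∈ T} d_i` behave like independent events. Good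
  means: these `2 ^ r` curves over `ℚ` have finitely many rational points and no element of order two
  in the Tate-Shafarevich group; equivalently no field `ℚ(√(- n d_T))` has an ideal class of order four.
* If `E_{-n}` is good over `F`, then `E_{-n}(F)` is finite, `L(E_{-n}/F, s)` extends to an entire function which
  does not vanish at `s = 1`, and the 2-primary part of `Ш(E_{-n}/F)` is finite, killed by `2 ^ r`.

Before (`MP_cd906c_nt/ExactDensityTotallyReal`) the field or the curve had to be fixed, and the averages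
were taken over all numbers `≤ X`. In the family of this file the pair is not determined by a random
number: the set of pairs of a given total conductor `f` has about `(2 ^ r) ^ ω(f)` elements, a power of
`log f` for almost all `f`, and the law holds inside each of these small sets. (For `r = 1` there is no such
law: `n d = f` is fixed.)

Proof. A pair of total conductor `f` is a colouring of the prime divisors of `f` by `2 ^ r` colours: the
prime divides `n`, or exactly the `d_i` with `i` in a nonempty set. The proportion of the good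
colourings is a random variable in `f`; its first and second moments are averages over all `f` and
all colourings of joint events for families of systems of colours. For a fixed random colouring of
all the primes, the large sieve for quadratic symbols in boxes of large primes with fixed labels (the
colour, the residues modulo 60) and an exact count of the labellings for which the Rédei matrices of all
the systems have rank as large as possible give these joint laws
(`Pool/Agent/N869/ZE`, parts by helpers 9, 123, 196, 322, 475, 814).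
-/

set_option autoImplicit false

namespace Pool.Agent.Results.MP_1a91b9_nt.PairsX15

open Pool.Agent.Results.MP_cd906c_nt.ExactDensityTotallyReal (RankZeroShaTwo NoOrderFour Twist Disc
  Independent IsMultiquadratic Setting Good BSDZero eta HasDensity)

/-- The pairs `(n, d)` of total conductor `f`: the primes which divide `n` or some `d_i` are the prime
divisors of `f`. -/
def pairs (r f : ℕ) : Set (ℕ × (Fin r → ℕ)) :=
  {x | Setting x.2 x.1 ∧ ∀ p : ℕ, p.Prime → (p ∣ f ↔ p ∣ x.1 ∨ ∃ i, p ∣ x.2 i)}

/-- There are pairs of total conductor `f`, finitely many, and the proportion of those with the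
property `P` differs from `q` by at most `δ`. -/
def Close {r : ℕ} (P : ℕ × (Fin r → ℕ) → Prop) (q δ : ℝ) (f : ℕ) : Prop :=
  (pairs r f).Finite ∧ 0 < (pairs r f).ncard ∧
    |({x ∈ pairs r f | P x}.ncard : ℝ) / ((pairs r f).ncard : ℝ) - q| ≤ δ

/-- The total conductors. -/
def Conductor (f : ℕ) : Prop := Squarefree f ∧ f.Coprime 30

section proof

open Filter Topology
open Pool.Agent.N869.ZE.A
open Pool.Agent.N969.P15 (Qc)

lemma fam_eq (r f : ℕ) : famP true r f = pairs r f := by
  ext x
  constructor
  · rintro ⟨h1, h2, h3, h4, h5, h6⟩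
    exact ⟨⟨h2, h3, h1, h4⟩, fun p hp => ⟨h6 rfl p hp, h5 p hp⟩⟩
  · rintro ⟨⟨h2, h3, h1, h4⟩, h5⟩
    exact ⟨h1, h2, h3, h4, fun p hp => (h5 p hp).2, fun _ p hp => (h5 p hp).1⟩

lemma rz {r f : ℕ} {x : ℕ × (Fin r → ℕ)} (hx : x ∈ pairs r f) (T : Finset (Fin r)) :
    RankZeroShaTwo (-(x.1 : ℤ) * ∏ i ∈ T, (x.2 i : ℤ)) ↔
      Qc (x.1 * Pool.Agent.N856.JL.sfp (∏ i ∈ T, x.2 i)) :=
  Pool.Agent.N856.JL.Res.rz_prod ⟨hx.1.1, hx.1.2.2.1, hx.1.2.2.2⟩ T

lemma dens_of {P Q Q' : ℕ → Prop} (hQ : ∀ m, P m → (Q m ↔ Q' m))
    (h : ∀ (i1 : DecidablePred fun f => P f ∧ Q f) (i2 : DecidablePred P),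
      Tendsto (fun X : ℕ => ((@Finset.filter ℕ (fun f => P f ∧ Q f) i1 (Finset.Icc 1 X)).card : ℝ) /
        ((@Finset.filter ℕ P i2 (Finset.Icc 1 X)).card : ℝ)) atTop (𝓝 1)) :
    HasDensity P Q' 1 := by
  have e : (fun m => P m ∧ Q m) = fun m => P m ∧ Q' m :=
    funext fun m => propext (and_congr_right fun h => hQ m h)
  unfold HasDensity Pool.Agent.Results.MP_cd906c_nt.ExactDensityTotallyReal.count
  rw [← e]
  exact h _ _

lemma main {r : ℕ} (hr : 2 ≤ r) (𝒯 : Finset (Finset (Fin r))) {δ : ℝ} (hδ : 0 < δ) :
    HasDensity Conductor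
      (Close (fun x : ℕ × (Fin r → ℕ) => ∀ T ∈ 𝒯,
        RankZeroShaTwo (-(x.1 : ℤ) * ∏ i ∈ T, (x.2 i : ℤ))) (eta ^ 𝒯.card) δ) 1 := by
  refine dens_of (Q := fun f => (famP true r f).Finite ∧ 0 < (famP true r f).ncard ∧
    |({x ∈ famP true r f | goodP 𝒯 x}.ncard : ℝ) / ((famP true r f).ncard : ℝ) -
      Pool.Agent.N869.QT.L.c2 ^ 𝒯.card| ≤ δ) ?_ ?_
  · intro f hf
    have e : {x ∈ pairs r f | ∀ T ∈ 𝒯, RankZeroShaTwo (-(x.1 : ℤ) * ∏ i ∈ T, (x.2 i : ℤ))} =
        {x ∈ famP true r f | goodP 𝒯 x} := by
      rw [fam_eq]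
      ext x
      refine and_congr_right fun hx => ?_
      exact forall_congr' fun T => forall_congr' fun _ => rz hx T
    unfold Close
    rw [e, fam_eq]
    exact Iff.rfl
  · exact fun i1 i2 => Pool.Agent.N869.ZE.A.pairs c2_bd t_AK Pool.Agent.N322.ZE.t_SQ2 t_M
      (fun _ => hr) 𝒯 hδ i1 i2

end proof

/-- **Main theorem.** Let `r ≥ 2`.
(1) For every pair `(n, d)` of total conductor `f`, `F = ℚ(√d_1, …, √d_r)`: `E_{-n}` is good over `F` (the
`2 ^ r` twists of `E_{-n}` over `ℚ` by the `d_T` have rank zero and no element of order two in `Ш`) if and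
only if no field `ℚ(√(- n d_T))` has an ideal class of order four. In this case `[F : ℚ] = 2 ^ r`,
`E_{-n}(F)` is finite, `L(E_{-n}/F, s)` is entire and not zero at `1`, and the 2-primary part of `Ш(E_{-n}/F)` is
finite and killed by `2 ^ r`.
(2) For every set `𝒯` of subsets of `{1, …, r}` and `δ > 0`, for almost all squarefree `f` prime to `30`
(natural density one) the proportion of the pairs of total conductor exactly `f` for which the twists of
`E_{-n}` by the `d_T`, `T ∈ 𝒯`, have rank zero and no element of order two in `Ш` differs from `η ^ #𝒯` by at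
most `δ`.
(3) In particular for almost all `f` the proportion of the pairs with `E_{-n}` good over `F` differs from
`η ^ (2 ^ r)` by at most `δ`. -/
theorem result (r : ℕ) (hr : 2 ≤ r) :
    (∀ f : ℕ, ∀ x ∈ pairs r f,
      (Good x.2 x.1 ↔ ∀ T : Finset (Fin r), NoOrderFour (x.1 * ∏ i ∈ T, x.2 i)) ∧
      (Good x.2 x.1 → ∀ (K : Type) [Field K] [NumberField K], IsMultiquadratic x.2 K →
        Module.finrank ℚ K = 2 ^ r ∧ BSDZero K (-(x.1 : ℤ)) (∏ i, (x.2 i : ℤ)) r)) ∧
    (∀ (𝒯 : Finset (Finset (Fin r))) (δ : ℝ), 0 < δ →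
      HasDensity Conductor
        (Close (fun x : ℕ × (Fin r → ℕ) => ∀ T ∈ 𝒯,
          RankZeroShaTwo (-(x.1 : ℤ) * ∏ i ∈ T, (x.2 i : ℤ))) (eta ^ 𝒯.card) δ) 1) ∧
    (∀ δ : ℝ, 0 < δ → HasDensity Conductor
      (Close (fun x : ℕ × (Fin r → ℕ) => Good x.2 x.1) (eta ^ 2 ^ r) δ) 1) ∧
    0.2887 < eta ∧ eta < 0.2889 := by
  obtain ⟨h1, -, -, -, h5, h6⟩ :=
    Pool.Agent.Results.MP_cd906c_nt.ExactDensityTotallyReal.result
  refine ⟨fun f x hx => h1 r x.2 x.1 hx.1, fun 𝒯 δ hδ => main hr 𝒯 hδ, fun δ hδ => ?_, h5, h6⟩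
  have h7 := main hr (Finset.univ : Finset (Finset (Fin r))) hδ
  rw [Finset.card_univ, Fintype.card_finset, Fintype.card_fin] at h7
  have e : (fun x : ℕ × (Fin r → ℕ) => ∀ T ∈ (Finset.univ : Finset (Finset (Fin r))),
      RankZeroShaTwo (-(x.1 : ℤ) * ∏ i ∈ T, (x.2 i : ℤ))) =
      fun x : ℕ × (Fin r → ℕ) => Good x.2 x.1 :=
    funext fun x => propext ⟨fun h T => h T (Finset.mem_univ _), fun h T _ => h T⟩
  rw [e] at h7
  exact h7

end Pool.Agent.Results.MP_1a91b9_nt.PairsX15
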