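import Pool.Agent.N637.K21.Mod3
import Pool.Agent.N637.K21.ClsG
import Pool.Agent.N637.K21.Stm3
import Pool.Agent.N637.K21.Gen
import Pool.Agent.N637.K21.GenGN
import Pool.Agent.N637.K21.G7
import Pool.Agent.N873.F15.Fu
import Pool.Agent.N966.K21.Rk
import Pool.Agent.N803.K17.Nrm
import Pool.Agent.N73.K21.SQ
import Pool.Agent.N27.K21.GN
import Pool.Agent.N40.K21.Two
import Pool.Agent.N755.K21.T3
import Pool.Agent.N459.K21.P7
import Pool.Agent.N400.K21.GU
import Pool.Agent.N558.K21.Cnt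
import Pool.Agent.N247.K21.Tam
import Pool.Agent.N222.K21.Lpr
import Pool.Agent.N607.K21.Nrm
import Pool.Agent.N966.K21.T3
import Pool.Agent.N558.K21.TCnt
import Pool.Agent.N296.K21.TTor
import Pool.Agent.N861.K21.Tam3
import Pool.Agent.N861.K21.MinDisc
import Pool.Agent.N340.K21.Dens
import Pool.Agent.N966.K21.Inf
import Pool.Agent.N160.K21.LPR

/-!
# The 2-part of the strong conjecture of Birch and Swinnerton-Dyer for `X_0(21)` over imaginary quadratic
# fields, with `#Ш[2^∞] = 4 ^ (t - 1)`, `t` the number of the ramified primes other than `3`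

`E` is the modular curve `X_0(21) : y² + x y = x³ - 4 x - 1`, which has no complex multiplication, and
`K = ℚ(√-n)`, of discriminant `-n` (odd or even), is any imaginary quadratic field other than `ℚ(√-3)` such
that `3` is not split and `7` is not inert in `K` (35 percent of all the imaginary quadratic fields); `t` is
the number of the primes other than `3` that ramify in `K`. Let
`z = L(E/K, 1) √n #E(K)_tors² / (Ω ∏ c_v)`, which is zero or the order of `Ш(E/K)` according to the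
conjecture. With no hypothesis on the rank or on `Ш` we prove, for all these `K`:
* the equation of `E` is minimal at all the finite places of `K`, `L(E/K, s)` is entire, `∏ c_v` is
  `2 ^ e`, `e = 5 - [3 inert] - [7 ramified]`, and `#E(K)_tors` is `8` times an odd number;
* if `3` is inert then `2 ^ rank E(K) * #Ш(E/K)[2] = 4 ^ (t - 1)`;
* `z = u * 4 ^ (t - 1) * y²` with a rational number `u` which is a unit at two and an integer `y`, which is
  odd if and only if the class group of `K` has no element of order four;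
* this is so if and only if `E(K)` is finite, `L(E/K, 1) ≠ 0`, `Ш(E/K)[2^∞] = Ш(E/K)[2]` is of order
  `4 ^ (t - 1)`, and this is the 2-part of `z`: the 2-part of the conjecture.
* For every `B` the natural density of the `K` for which this is true with `#Ш(E/K)[2^∞] ≥ 4 ^ B` is
  exactly `η = ∏_{i ≥ 1} (1 - 2^{-i}) = 0.2888…` in the family, and `45 η / 128 = 0.1015…` among all the
  imaginary quadratic fields, ordered by the discriminant; and for every `k` there are infinitely many `K` for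
  which this is true with `#Ш(E/K)[2^∞] = 4 ^ k`.
-/

set_option autoImplicit false
set_option linter.style.haveILetI false

open NumberField IsDedekindDomain WeierstrassCurve Filter Topology Finset

namespace Pool.Agent.Results.MP_1a91b9_nt.TwoPartX21Imaginary

open scoped Classical

open Pool.Agent.TH841.NF.D (Sha)

/-- The curve given by the equation of `W` over the ring `R`. -/
abbrev base (W : WeierstrassCurve ℤ) (R : Type) [CommRing R] : WeierstrassCurve R :=
  W.map (Int.castRingHom R)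

/-- The number of the affine points `(x, y)` over the ring `R`. -/
noncomputable def pts (W : WeierstrassCurve ℤ) (R : Type) [CommRing R] : ℕ :=
  Nat.card {P : R × R // (base W R).toAffine.Equation P.1 P.2}

section

variable {K : Type} [Field K] [NumberField K]

/-- `a_v = N v + 1 - #W(k_v)`, the points over the residue field `k_v` counted with the point at
infinity. -/
noncomputable def a (W : WeierstrassCurve ℤ) (v : HeightOneSpectrum (𝓞 K)) : ℤ :=
  (Ideal.absNorm v.asIdeal : ℤ) - pts W (𝓞 K ⧸ v.asIdeal)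

/-- The Euler factor of `L(W/K, s)` at `v` : `(1 - a_v N v^(-s) + N v^(1 - 2 s))⁻¹` if the
discriminant is a unit at `v`, and `(1 - a_v N v^(-s))⁻¹` otherwise. -/
noncomputable def factor (W : WeierstrassCurve ℤ) (s : ℂ) (v : HeightOneSpectrum (𝓞 K)) : ℂ :=
  (1 - (a W v : ℂ) * (Ideal.absNorm v.asIdeal : ℂ) ^ (-s) +
    if ((W.Δ : ℤ) : 𝓞 K) ∈ v.asIdeal then 0 else (Ideal.absNorm v.asIdeal : ℂ) ^ (1 - 2 * s))⁻¹

/-- The equation is minimal at the finite place `v` of `K`: no change of variables over `K` that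
keeps the coefficients integral at `v` decreases the valuation of the discriminant. -/
def MinimalAt (W : WeierstrassCurve ℤ) (v : HeightOneSpectrum (𝓞 K)) : Prop :=
  ∀ C : VariableChange K, v.valuation K (C • base W K).a₁ ≤ 1 →
    v.valuation K (C • base W K).a₂ ≤ 1 → v.valuation K (C • base W K).a₃ ≤ 1 →
    v.valuation K (C • base W K).a₄ ≤ 1 → v.valuation K (C • base W K).a₆ ≤ 1 →
    v.valuation K (C • base W K).Δ ≤ v.valuation K (base W K).Δ

/-- `E⁰(K_v)`, the group of the points of `W` over the completion `K_v` with nonsingular reduction: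
the points `(x, y)` where `x` is not integral, or one of the partial derivatives of
`y² + a₁ x y + a₃ y - x³ - a₂ x² - a₄ x - a₆` is a unit at `(x, y)`, and the point at infinity. -/
noncomputable def nonsing (W : WeierstrassCurve ℤ) (v : HeightOneSpectrum (𝓞 K)) :
    AddSubgroup (base W (v.adicCompletion K)).toAffine.Point :=
  AddSubgroup.closure {P | ∀ x y h, P = Affine.Point.some x y h →
    1 < Valued.v x ∨ Valued.v (W.a₁ * y - (3 * x ^ 2 + 2 * W.a₂ * x + W.a₄)) = 1 ∨
      Valued.v (2 * y + W.a₁ * x + W.a₃) = 1}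

/-- The Tamagawa number `c_v = [E(K_v) : E⁰(K_v)]` of a minimal equation. -/
noncomputable def c (W : WeierstrassCurve ℤ) (v : HeightOneSpectrum (𝓞 K)) : ℕ :=
  (nonsing W v).index

end

section

variable (K : Type) [Field K] [NumberField K]

/-- The product of the Tamagawa numbers. -/
noncomputable def Tam (W : WeierstrassCurve ℤ) : ℕ := ∏ᶠ v : HeightOneSpectrum (𝓞 K), c W v

/-- The order of the torsion subgroup of `W(K)`. -/
noncomputable def torsOrder (W : WeierstrassCurve ℤ) : ℕ :=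
  Nat.card (AddCommGroup.torsion (base W K).toAffine.Point)

/-- The 2-primary part of the Tate-Shafarevich group over `K`. -/
noncomputable abbrev Sha2 (W : WeierstrassCurve ℤ) : AddSubgroup (Sha (base W K)) :=
  AddCommGroup.primaryComponent (Sha (base W K)) 2

/-- `L` is the L-function of the minimal equation `W` over `K`: it is entire and it is given by the
Euler product for `Re s > 3/2`. -/
def IsL (W : WeierstrassCurve ℤ) (L : ℂ → ℂ) : Prop :=
  Differentiable ℂ L ∧ ∀ s : ℂ, 3 / 2 < s.re → HasProd (factor (K := K) W s) (L s)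

/-- The class group of `K` has no element of order four. -/
def NoOrderFour : Prop := ∀ c : ClassGroup (𝓞 K), c ^ 4 = 1 → c ^ 2 = 1

end

/-- `Λ` is the lattice of periods of the differential `dx / (2y + a₁x + a₃)` of the complex curve `W`. -/
def IsPeriodLattice (W : WeierstrassCurve ℤ) (Λ : PeriodPair) : Prop :=
  Λ.g₂ = (W.c₄ : ℂ) / 12 ∧ Λ.g₃ = (W.c₆ : ℂ) / 216

/-- Twice the area of a fundamental parallelogram of the lattice. -/
noncomputable def period (Λ : PeriodPair) : ℝ := 2 * |((starRingEnd ℂ) Λ.ω₁ * Λ.ω₂).im|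

/-- The order of the Tate-Shafarevich group predicted by the formula in rank zero for the curve `W` over
an imaginary quadratic field `K`, for the value `l` of the L-function at `s = 1`:
`l √|disc K| #W(K)_tors² / (Ω ∏ c_v)`. -/
noncomputable def anOrder (K : Type) [Field K] [NumberField K] (W : WeierstrassCurve ℤ) (l : ℂ)
    (Λ : PeriodPair) : ℂ :=
  l * (Real.sqrt |(discr K : ℝ)| : ℝ) * (torsOrder K W : ℂ) ^ 2 /
    ((period Λ : ℂ) * (Tam K W : ℂ))

/-- The 2-part of the strong conjecture of Birch and Swinnerton-Dyer for the curve `W` over an imaginary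
quadratic field `K`, in the case that the rank is zero and `Ш[2^∞]` is a vector space of dimension `2 k`
over the field with two elements: the equation `W` is minimal at all the finite places, `W(K)` is finite,
`Ш(W/K)[2^∞]` is killed by two and has order `4 ^ k`, `L(W/K, s)` is entire, `L(W/K, 1) ≠ 0`, and the
predicted order of `Ш` is a rational number with 2-adic valuation `2 k`. -/
def TwoPart (K : Type) [Field K] [NumberField K] (W : WeierstrassCurve ℤ) (k : ℕ) : Prop :=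
  (∀ v : HeightOneSpectrum (𝓞 K), MinimalAt W v) ∧ Finite (base W K).toAffine.Point ∧
  (∀ x : Sha2 K W, 2 • x = 0) ∧ Nat.card (Sha2 K W) = 4 ^ k ∧
  {v : HeightOneSpectrum (𝓞 K) | c W v ≠ 1}.Finite ∧ 0 < Tam K W ∧ 0 < torsOrder K W ∧
  ∃ (L : ℂ → ℂ) (z : ℚ), IsL K W L ∧ L 1 ≠ 0 ∧ (∃ Λ : PeriodPair, IsPeriodLattice W Λ) ∧
    (∀ Λ : PeriodPair, IsPeriodLattice W Λ → 0 < period Λ ∧ anOrder K W (L 1) Λ = z) ∧
    z ≠ 0 ∧ padicValRat 2 z = 2 * k

/-- The modular curve `X_0(21)`. -/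
def X21 : WeierstrassCurve ℤ := ⟨1, 0, 0, -4, -1⟩

/-- `-n` is a fundamental discriminant. -/
def FundNeg (n : ℕ) : Prop := (Squarefree n ∧ n % 4 = 3) ∨
  ∃ m : ℕ, n = 4 * m ∧ Squarefree m ∧ (m % 4 = 1 ∨ m % 4 = 2)

/-- The family: `-n ≠ -3` is a fundamental discriminant, `3` is not split and `7` is not inert in
`ℚ(√-n)`. -/
def Family (n : ℕ) : Prop :=
  FundNeg n ∧ n ≠ 3 ∧ n % 3 ≠ 2 ∧ (n % 7 = 0 ∨ n % 7 = 3 ∨ n % 7 = 5 ∨ n % 7 = 6)

/-- The squarefree integer `m n` with `ℚ(√(m n)) = ℚ(√-n)`. -/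
def m (n : ℕ) : ℤ := if n % 2 = 1 then -(n : ℤ) else -((n / 4 : ℕ) : ℤ)

/-- `K` is the quadratic field `ℚ(√-n)`. -/
def IsQuad (n : ℕ) (K : Type) [Field K] [NumberField K] : Prop :=
  Module.finrank ℚ K = 2 ∧ ∃ s : K, s ^ 2 = (m n : K)

/-- The number of the primes other than `3` that ramify in `ℚ(√-n)`. -/
def t (n : ℕ) : ℕ := (n.primeFactors.erase 3).card

/-- The statement for all the fields `K = ℚ(√-n)` of the family. -/
def Criterion (n : ℕ) (K : Type) [Field K] [NumberField K] : Prop :=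
  discr K = -(n : ℤ) ∧ (∀ v : HeightOneSpectrum (𝓞 K), MinimalAt X21 v) ∧
  {v : HeightOneSpectrum (𝓞 K) | c X21 v ≠ 1}.Finite ∧
  Tam K X21 = (if 3 ∣ n then 2 else 1) * (if 7 ∣ n then 8 else 16) ∧
  (∃ k : ℕ, Odd k ∧ torsOrder K X21 = 8 * k) ∧ AddGroup.FG (base X21 K).toAffine.Point ∧
  (¬ 3 ∣ n → 2 ^ Module.finrank ℤ (base X21 K).toAffine.Point *
    Nat.card {x : Sha (base X21 K) // 2 • x = 0} = 4 ^ (t n - 1)) ∧
  (∃ (L : ℂ → ℂ) (u : ℚ) (y : ℤ), IsL K X21 L ∧ u ≠ 0 ∧ padicValRat 2 u = 0 ∧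
    (∃ Λ : PeriodPair, IsPeriodLattice X21 Λ) ∧
    (∀ Λ : PeriodPair, IsPeriodLattice X21 Λ → 0 < period Λ ∧
      anOrder K X21 (L 1) Λ = ((u * 4 ^ (t n - 1) * (y : ℚ) ^ 2 : ℚ) : ℂ)) ∧
    (Odd y ↔ NoOrderFour K)) ∧
  (NoOrderFour K ↔ TwoPart K X21 (t n - 1))

/-- The 2-part of the conjecture for `X_0(21)` over `ℚ(√-n)`. -/
def Proved (n : ℕ) : Prop :=
  ∀ (K : Type) [Field K] [NumberField K], IsQuad n K → TwoPart K X21 (t n - 1)

/-- `η = (1 - 1/2) (1 - 1/4) (1 - 1/8) ⋯` -/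
noncomputable def eta : ℝ := ∏' i : ℕ, (1 - (1 / 2 : ℝ) ^ (i + 1))

/-- The number of the `n ≤ X` with the property `Q`. -/
noncomputable def count (Q : ℕ → Prop) (X : ℕ) : ℕ := ((Icc 1 X).filter fun n => Q n).card

section proof

open Pool.Agent.N637.K21
open Pool.Agent.N637.P21 (WS)
open Pool.Agent.N875.X15 (Fin2)

/-- all the parts -/
structure Hyps : Prop where
  RK : S_RK
  NRM : Pool.Agent.N875.K17.S_NRM
  SQ : S_SQ
  GN : S_GN
  N2 : S_2N
  T3 : S_3
  T7 : S_7
  GU : S_GU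
  U2 : S_2U
  INF : S_INF
  CNT : S_CNT
  LPR : S_LPR
  TAM : S_TAM
  tNRM : T_NRM
  tGN : T_GN
  t2N : T_2N
  t3 : T_3
  t7 : T_7
  tGU : T_GU
  t2U : T_2U
  tINF : T_INF
  tCNT : T_CNT
  tTOR : T_TOR
  tLPR : T_LPR
  tTAM : T_TAM
  tMIN : T_MIN
  tDISC : T_DISC

/-- the parts -/
theorem hyps : Hyps where
  RK := Pool.Agent.N966.K21.t_RK
  NRM := Pool.Agent.N803.K17.t_NRM
  SQ := Pool.Agent.N73.K21.t_SQ
  GN := Pool.Agent.N27.K21.t_GN
  N2 := Pool.Agent.N40.K21.t_2N
  T3 := Pool.Agent.N755.K21.t_3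
  T7 := Pool.Agent.N459.K21.t_7
  GU := Pool.Agent.N400.K21.t_GU
  U2 := Pool.Agent.N40.K21.t_2U
  INF := Pool.Agent.N73.K21.t_INF
  CNT := Pool.Agent.N558.K21.t_CNT
  LPR := Pool.Agent.N222.K21.t_LPR
  TAM := Pool.Agent.N247.K21.t_TAM
  tNRM := Pool.Agent.N607.K21.t_NRM
  tGN := Pool.Agent.N637.K21.Gen.g_GN
  t2N := Pool.Agent.N637.K21.Gen.g_2N
  t3 := Pool.Agent.N966.K21.T3.t_3
  t7 := Pool.Agent.N637.K21.G7.t_7
  tGU := Pool.Agent.N637.K21.Gen.g_GU
  t2U := Pool.Agent.N637.K21.Gen.g_2U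
  tINF := Pool.Agent.N637.K21.Gen.g_INF
  tCNT := Pool.Agent.N558.K21.T.TCNT
  tTOR := Pool.Agent.N296.K21.TTor.t_TOR
  tLPR := Pool.Agent.N160.K21.TLPR
  tTAM := Pool.Agent.N861.K21.t_TAM
  tMIN := Pool.Agent.N861.K21.t_MIN
  tDISC := Pool.Agent.N861.K21.t_DISC

lemma m_props {n : ℕ} (h : Family n) : Squarefree (m n) ∧ m n < 0 ∧ m n % 3 ≠ 1 ∧
    (m n % 7 = 0 ∨ m n % 7 = 1 ∨ m n % 7 = 2 ∨ m n % 7 = 4) ∧ nn (m n) = n ∧
    (m n % 4 = 1 ∨ (m n % 4 ≠ 1 ∧ n % 2 = 0)) ∧ ((7 : ℤ) ∣ m n ↔ 7 ∣ n) ∧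
    ((3 : ℤ) ∣ m n ↔ 3 ∣ n) ∧ m n ≠ -3 := by
  obtain ⟨h1, hn3, h3, h7⟩ := h
  rcases h1 with ⟨hs, h4⟩ | ⟨k, rfl, hs, h4⟩
  · have em : m n = -(n : ℤ) := if_pos (by omega)
    have h0 : m n % 4 = 1 := by omega
    refine ⟨?_, by omega, by omega, by omega, ?_, Or.inl h0, by omega, by omega, by omega⟩
    · rw [em, ← Int.squarefree_natAbs, Int.natAbs_neg, Int.natAbs_natCast]
      exact hs
    · unfold nn
      rw [if_pos h0, em, Int.natAbs_neg, Int.natAbs_natCast]
  · have em : m (4 * k) = -(k : ℤ) := by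
      unfold m
      rw [if_neg (by omega)]
      congr 1
      omega
    have h0 : m (4 * k) % 4 ≠ 1 := by omega
    refine ⟨?_, by omega, by omega, by omega, ?_, Or.inr ⟨h0, by omega⟩, by omega, by omega,
      by omega⟩
    · rw [em, ← Int.squarefree_natAbs, Int.natAbs_neg, Int.natAbs_natCast]
      exact hs
    · unfold nn
      rw [if_neg h0, em, Int.natAbs_neg, Int.natAbs_natCast]

lemma IsL.unique {K : Type} [Field K] [NumberField K] {W : WeierstrassCurve ℤ} {f g : ℂ → ℂ}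
    (hf : IsL K W f) (hg : IsL K W g) : f = g := by
  have hfa : AnalyticOnNhd ℂ f Set.univ := fun z _ => hf.1.analyticAt z
  have hga : AnalyticOnNhd ℂ g Set.univ := fun z _ => hg.1.analyticAt z
  have heq : f =ᶠ[nhds (2 : ℂ)] g := by
    have hopen : IsOpen {s : ℂ | (3 : ℝ) / 2 < s.re} := isOpen_lt continuous_const Complex.continuous_re
    filter_upwards [hopen.mem_nhds (show (3 : ℝ) / 2 < (2 : ℂ).re by norm_num)] with s hs
    exact (hf.2 s hs).unique (hg.2 s hs)
  exact hfa.eq_of_eventuallyEq hga heq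

lemma val_pow (u : ℚ) (hu : u ≠ 0) (h : padicValRat 2 u = 0) (k : ℕ) {y : ℤ} (hy : y ≠ 0) :
    padicValRat 2 (u * 4 ^ k * (y : ℚ) ^ 2) = 2 * k + 2 * padicValInt 2 y := by
  have : Fact (Nat.Prime 2) := ⟨Nat.prime_two⟩
  have hyq : (y : ℚ) ≠ 0 := by exact_mod_cast hy
  have h2 : (4 : ℚ) ^ k ≠ 0 := pow_ne_zero k (by norm_num)
  have h4 : padicValRat 2 (4 : ℚ) = 2 := by
    have e : (4 : ℚ) = 2 ^ 2 := by norm_num
    have := padicValRat.self (p := 2) (by norm_num)
    rw [e, padicValRat.pow]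
    have e2 : padicValRat 2 (2 : ℚ) = 1 := by exact_mod_cast this
    rw [e2]
    norm_num
  rw [padicValRat.mul (mul_ne_zero hu h2) (pow_ne_zero 2 hyq), padicValRat.mul hu h2, h,
    padicValRat.pow, padicValRat.pow, padicValRat.of_int, h4]
  push_cast
  ring

/-- the algebraic part -/
theorem alg (H : Hyps) {n : ℕ} (hA : Family n) {K : Type} [Field K] [NumberField K] {r : K}
    (hq : Qg (m n) K r) (hF : Fin2 (WS (m n))) : Finite (base X21 K).toAffine.Point ∧
    (∀ x : Sha2 K X21, 2 • x = 0) ∧ Nat.card (Sha2 K X21) = 4 ^ (t n - 1) := by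
  obtain ⟨hsq, hneg, h3, h7, hnn, h4, h77, h33, hne⟩ := m_props hA
  have ht : 0 < t n := by
    have := pr_pos3 hsq hneg hne (by omega)
    rwa [hnn] at this
  refine ⟨(fin_ptsG (fin2_one H.SQ.2) hF hq).2, ?_⟩
  by_cases hm3 : m n % 3 = 0
  · have hPR : (Pool.Agent.N875.X15.PR (m n)).card = (t n - 1) + 2 := by
      rw [pr_card3 hneg hm3, hnn]
      show t n + 1 = _
      omega
    exact sha_main3 H.RK H.NRM H.tNRM H.SQ H.tGN H.t2N H.t3 H.t7 H.tGU H.t2U H.tINF H.tCNT hq hm3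
      hne hF hPR
  · have hm2 : m n % 3 = 2 := by omega
    have hPR : (Pool.Agent.N875.X15.PR (m n)).card = (t n - 1) + 1 := by
      rw [pr_card2 hm2, hnn]
      show t n = _
      omega
    exact sha_main H.RK H.NRM H.SQ H.GN H.N2 H.T3 H.T7 H.GU H.U2 H.INF H.CNT (hq.toQd hm2) hF hPR

/-- the rank if `3` is inert -/
theorem rk (H : Hyps) {n : ℕ} (hA : Family n) {K : Type} [Field K] [NumberField K] {r : K}
    (hq : Qg (m n) K r) (h3n : ¬ 3 ∣ n) : 2 ^ Module.finrank ℤ (base X21 K).toAffine.Point *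
      Nat.card {x : Sha (base X21 K) // 2 • x = 0} = 4 ^ (t n - 1) := by
  obtain ⟨hsq, hneg, h3, h7, hnn, h4, h77, h33, hne⟩ := m_props hA
  have hm2 : m n % 3 = 2 := by omega
  have ht : 0 < t n := by
    have := pr_pos3 hsq hneg hne (by omega)
    rwa [hnn] at this
  have hPR : (Pool.Agent.N875.X15.PR (m n)).card = (t n - 1) + 1 := by
    rw [pr_card2 hm2, hnn]
    show t n = _
    omega
  obtain ⟨-, -, hSel⟩ := sha_N H.RK H.NRM H.SQ H.GN H.N2 H.T3 H.T7 H.GU H.U2 H.INF H.CNT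
    (hq.toQd hm2)
  rw [hPR, pow_succ] at hSel
  have h5 : 4 * (2 ^ Module.finrank ℤ (base X21 K).toAffine.Point *
    Nat.card {x : Sha (base X21 K) // 2 • x = 0}) = 4 * 4 ^ (t n - 1) := by
    have h6 : 2 ^ Module.finrank ℤ (base X21 K).toAffine.Point *
      (4 * Nat.card {x : Sha (base X21 K) // 2 • x = 0}) = 4 ^ (t n - 1) * 4 := hSel
    linarith
  exact Nat.eq_of_mul_eq_mul_left (by norm_num) h5

/-- the Tamagawa numbers -/
theorem tam (H : Hyps) {n : ℕ} (hA : Family n) {K : Type} [Field K] [NumberField K] {r : K}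
    (hq : Qg (m n) K r) : {v : HeightOneSpectrum (𝓞 K) | c X21 v ≠ 1}.Finite ∧
    Tam K X21 = (if 3 ∣ n then 2 else 1) * (if 7 ∣ n then 8 else 16) := by
  obtain ⟨hsq, hneg, h3, h7, hnn, h4, h77, h33, hne⟩ := m_props hA
  have e : Tam K X21 = Pool.Agent.Y682.XF.Tam K Pool.Agent.N637.K21.X21 := rfl
  by_cases hm3 : m n % 3 = 0
  · obtain ⟨hcf, htam⟩ := H.tTAM (m n) K r hq hm3
    refine ⟨hcf, ?_⟩
    rw [e, htam, if_pos (h33.1 (by omega))]
    by_cases h : 7 ∣ n
    · rw [if_pos h, if_pos (h77.2 h)]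
    · rw [if_neg h, if_neg (fun h' => h (h77.1 h'))]
  · have hm2 : m n % 3 = 2 := by omega
    obtain ⟨hcf, htam⟩ := H.TAM (m n) K r (hq.toQd hm2)
    refine ⟨hcf, ?_⟩
    have hn3 : ¬ 3 ∣ n := fun h => by have := h33.2 h; omega
    rw [e, htam, if_neg hn3]
    by_cases h : 7 ∣ n
    · rw [if_pos h, if_pos (h77.2 h)]
    · rw [if_neg h, if_neg (fun h' => h (h77.1 h'))]

/-- the L-function -/
theorem lpr (H : Hyps) {n : ℕ} (hA : Family n) {K : Type} [Field K] [NumberField K] {r : K}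
    (hq : Qg (m n) K r) (s f g : ℂ) (hs : 3 / 2 < s.re) (hf : Eul Pool.Agent.N637.K21.X21 s f)
    (hg : Eul (Tw (m n)) s g) : HasProd (factor (K := K) X21 s) (f * g) := by
  obtain ⟨hsq, hneg, h3, h7, hnn, h4, h77, h33, hne⟩ := m_props hA
  by_cases hm3 : m n % 3 = 0
  · exact H.tLPR (m n) K r hq hm3 s f g hs hf hg
  · exact H.LPR (m n) K r (hq.toQd (by omega)) s f g hs hf hg

/-- the criterion -/
theorem criterion (H : Hyps) {n : ℕ} (hA : Family n) (K : Type) [Field K] [NumberField K]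
    (hQ : IsQuad n K) : Criterion n K := by
  obtain ⟨hsq, hneg, h3, h7, hnn, h4, h77, h33, hne⟩ := m_props hA
  obtain ⟨h2, r, hr⟩ := hQ
  have hq : Qg (m n) K r := qg_of hsq hneg h7 hr h2
  have ht : 0 < t n := by
    have := pr_pos3 hsq hneg hne (by omega)
    rwa [hnn] at this
  obtain ⟨k, hk⟩ : ∃ k, t n = k + 1 := ⟨t n - 1, by omega⟩
  have hk1 : t n - 1 = k := by omega
  have hcl : NoOrderFour K ↔ Fin2 (WS (m n)) := class_KG hsq hneg h3 h7 K h2 ⟨r, hr⟩
  have hdisc : discr K = -(n : ℤ) := by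
    rw [H.tDISC (m n) K r hq]
    unfold nn at hnn
    rcases h4 with h4 | ⟨h4, -⟩
    · rw [if_pos h4] at hnn ⊢
      omega
    · rw [if_neg h4] at hnn ⊢
      omega
  have hmin : ∀ v : HeightOneSpectrum (𝓞 K), MinimalAt X21 v := H.tMIN (m n) K r hq
  obtain ⟨hcf', htam'⟩ := tam H hA hq
  obtain ⟨-, j, hj, htor⟩ := H.tTOR (m n) K r hq hne
  have htor' : torsOrder K X21 = 8 * j := htor
  have hFG : AddGroup.FG (base X21 K).toAffine.Point := fg_K K
  obtain ⟨Op, Om, L0, hOp, hOm, g2, g3, hLt, f1, fD, y, u, hf1, hfD, hu0, hu, hy, hval⟩ :=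
    val_prodG hsq hneg h3 h7
  have c4 : (((X21).c₄ : ℤ) : ℂ) / 12 = 193 / 12 := by
    have : (X21).c₄ = 193 := by decide
    rw [this]; norm_num
  have c6 : (((X21).c₆ : ℤ) : ℂ) / 216 = 575 / 216 := by
    have : (X21).c₆ = 575 := by decide
    rw [this]; norm_num
  have hper : ∀ Λ : PeriodPair, IsPeriodLattice X21 Λ → period Λ = 2 * (Op * Om) := by
    rintro Λ ⟨e1, e2⟩
    exact area_rect hOp hOm hLt (by rw [e1, c4, g2]) (by rw [e2, c6, g3])
  have hIsL : IsL K X21 (fun s => f1 s * fD s) :=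
    ⟨hf1.1.mul hfD.1, fun s hs => lpr H hA hq s _ _ hs (hf1.2 s hs) (hfD.2 s hs)⟩
  have hj0 : (j : ℚ) ≠ 0 := by exact_mod_cast hj.pos.ne'
  obtain ⟨u', hu', hu0', huv'⟩ : ∃ u' : ℚ, u' = u * (j : ℚ) ^ 2 ∧ u' ≠ 0 ∧
      padicValRat 2 u' = 0 := by
    have : Fact (Nat.Prime 2) := ⟨Nat.prime_two⟩
    refine ⟨_, rfl, mul_ne_zero hu0 (pow_ne_zero 2 hj0), ?_⟩
    rw [padicValRat.mul hu0 (pow_ne_zero 2 hj0), padicValRat.pow, hu]
    have e := Pool.Agent.N637.P21.odd_val ((Int.odd_coe_nat j).2 hj)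
    rw [Int.cast_natCast] at e
    rw [e]
    norm_num
  have hn0 : 0 < n := by
    rcases Nat.eq_zero_or_pos n with h | h
    · rw [h] at hneg
      exact absurd hneg (by decide)
    · exact h
  have hsn : (Real.sqrt (n : ℝ) : ℂ) ≠ 0 := by
    have : (0 : ℝ) < √(n : ℝ) := Real.sqrt_pos.2 (by exact_mod_cast hn0)
    exact_mod_cast this.ne'
  have han : ∀ Λ : PeriodPair, IsPeriodLattice X21 Λ → 0 < period Λ ∧
      anOrder K X21 (f1 1 * fD 1) Λ = ((u' * 4 ^ (t n - 1) * (y : ℚ) ^ 2 : ℚ) : ℂ) := by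
    intro Λ hΛ
    have e1 := hper Λ hΛ
    refine ⟨by rw [e1]; positivity, ?_⟩
    have ed : |((discr K : ℤ) : ℝ)| = (n : ℝ) := by
      rw [hdisc]
      push_cast
      rw [abs_neg, abs_of_nonneg (by positivity)]
    have hpf : 3 ∣ n → n.primeFactors.card = k + 2 := by
      intro h
      have h1 : 3 ∈ n.primeFactors := Nat.mem_primeFactors.2 ⟨Nat.prime_three, h, by omega⟩
      have h2 := Finset.card_erase_add_one h1
      have h5 : (n.primeFactors.erase 3).card = k + 1 := hk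
      omega
    have hpf' : ¬ 3 ∣ n → n.primeFactors.card = k + 1 := by
      intro h
      have h1 : 3 ∉ n.primeFactors := fun h' => h (Nat.mem_primeFactors.1 h').2.1
      have h5 : (n.primeFactors.erase 3).card = k + 1 := hk
      rwa [Finset.erase_eq_of_notMem h1] at h5
    unfold anOrder
    rw [e1, ed, htor', htam', hval, hnn, hk1, hu']
    have o1 : (Op : ℂ) ≠ 0 := by exact_mod_cast hOp.ne'
    have o2 : (Om : ℂ) ≠ 0 := by exact_mod_cast hOm.ne'
    by_cases hb : 3 ∣ n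
    · rw [if_pos hb, if_pos (h33.2 hb), hpf hb]
      by_cases h : 7 ∣ n
      · rw [if_pos h, if_pos (h77.2 h)]
        push_cast
        rw [pow_add]
        field_simp
        ring
      · rw [if_neg h, if_neg (fun h' => h (h77.1 h'))]
        push_cast
        rw [pow_add]
        field_simp
        ring
    · rw [if_neg hb, if_neg (fun h' => hb (h33.1 h')), hpf' hb]
      by_cases h : 7 ∣ n
      · rw [if_pos h, if_pos (h77.2 h)]
        push_cast
        rw [pow_succ]
        field_simp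
        ring
      · rw [if_neg h, if_neg (fun h' => h (h77.1 h'))]
        push_cast
        rw [pow_succ]
        field_simp
        ring
  have hyd : Odd y ↔ NoOrderFour K := hy.trans hcl.symm
  have hex : ∃ Λ : PeriodPair, IsPeriodLattice X21 Λ := ⟨L0, by rw [g2, c4], by rw [g3, c6]⟩
  refine ⟨hdisc, hmin, hcf', htam', ⟨j, hj, htor'⟩, hFG, fun h3n => rk H hA hq h3n,
    ⟨_, u', y, hIsL, hu0', huv', hex, han, hyd⟩, ?_, ?_⟩
  · intro hno
    have hyo := hyd.2 hno
    have hF := hcl.1 hno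
    have hy0 : y ≠ 0 := by
      rintro rfl
      exact absurd hyo (by decide)
    obtain ⟨hfin, hexp, hcard⟩ := alg H hA hq hF
    have hyv : padicValInt 2 y = 0 := by
      refine padicValInt.eq_zero_of_not_dvd ?_
      intro hdv
      have h5 := Int.odd_iff.1 hyo
      omega
    have hz0 : u' * 4 ^ (t n - 1) * (y : ℚ) ^ 2 ≠ 0 :=
      mul_ne_zero (mul_ne_zero hu0' (pow_ne_zero _ (by norm_num)))
        (pow_ne_zero 2 (by exact_mod_cast hy0))
    refine ⟨hmin, hfin, hexp, hcard, hcf', ?_, ?_,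
      fun s => f1 s * fD s, u' * 4 ^ (t n - 1) * (y : ℚ) ^ 2, hIsL, ?_, hex, han, hz0, ?_⟩
    · rw [htam']
      split_ifs <;> norm_num
    · rw [htor']
      exact Nat.mul_pos (by norm_num) hj.pos
    · obtain ⟨Λ, hΛ⟩ := hex
      have e1 := (han Λ hΛ).2
      intro h0
      have h0' : f1 1 * fD 1 = 0 := h0
      rw [h0'] at e1
      unfold anOrder at e1
      rw [zero_mul, zero_mul, zero_div] at e1
      exact hz0 (by exact_mod_cast e1.symm)
    · rw [val_pow u' hu0' huv' _ hy0, hyv]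
      norm_num
  · rintro ⟨-, -, -, -, -, -, -, L', z, hL', -, -, hz, hz0, hzv⟩
    rw [← hyd]
    obtain ⟨Λ, hΛ⟩ := hex
    have e1 := (hz Λ hΛ).2
    rw [IsL.unique hL' hIsL, (han Λ hΛ).2] at e1
    have e2 : u' * 4 ^ (t n - 1) * (y : ℚ) ^ 2 = z := by exact_mod_cast e1
    have hy0 : y ≠ 0 := by
      rintro rfl
      apply hz0
      rw [← e2]
      simp
    have e3 := val_pow u' hu0' huv' (t n - 1) hy0
    rw [e2, hzv] at e3
    have e4 : padicValInt 2 y = 0 := by
      have : (2 : ℤ) * (padicValInt 2 y : ℤ) = 0 := by linarith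
      have h6 : (padicValInt 2 y : ℤ) = 0 := by linarith
      exact_mod_cast h6
    rw [← Int.not_even_iff_odd]
    intro he
    have h7 : ¬ (2 : ℤ) ∣ y := by
      intro hdv
      have : Fact (Nat.Prime 2) := ⟨Nat.prime_two⟩
      have h8 := (padicValInt_dvd_iff (p := 2) 1 y).1 (by
        rw [Nat.cast_ofNat, pow_one]; exact hdv)
      rcases h8 with h8 | h8
      · exact hy0 h8
      · rw [e4] at h8
        omega
    exact h7 he.two_dvd

lemma go_iff {n : ℕ} (h : Family n) : Fin2 (WS (m n)) ↔ Pool.Agent.N916.TE.Go n := by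
  obtain ⟨hsq, hneg, h3, h7, hnn, h4, h77, h33, hne⟩ := m_props h
  obtain ⟨h1, h0, h31, h71⟩ := h
  rcases h1 with ⟨hs, hn4⟩ | hE
  · have em : m n = -(n : ℤ) := if_pos (by omega)
    have hc := Pool.Agent.N637.P21.crit_ao_S (n := n) ⟨hs, hn4, by omega, h71⟩
    rw [em, hc]
    exact ⟨fun h => ⟨fun _ => h, fun h2 => by omega⟩, fun h => h.1 (by omega)⟩
  · have ho : n % 2 = 0 := by
      obtain ⟨k, rfl, -⟩ := hE
      omega
    have em : m n = -((n / 4 : ℕ) : ℤ) := if_neg (by omega)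
    have hc := Pool.Agent.N637.P21.crit_ae_S (n := n) ⟨hE, by omega, h71⟩
    rw [em, hc]
    exact ⟨fun h => ⟨fun h2 => by omega, fun _ => h⟩, fun h => h.2 ho⟩

lemma proved_iff (H : Hyps) {n : ℕ} (h : Family n) : Proved n ↔ Pool.Agent.N916.TE.Go n := by
  rw [← go_iff h]
  obtain ⟨hsq, hneg, h3, h7, hnn, h4, h77, h33, hne⟩ := m_props h
  constructor
  · intro hP
    obtain ⟨k, hk⟩ : ∃ k : ℕ, m n = -(k : ℤ) := ⟨(m n).natAbs, by omega⟩
    obtain ⟨K, i1, i2, h6, s, hs⟩ := Pool.Agent.N969.P15.exists_qf (n := k) (by omega)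
    have h9 : s ^ 2 = (m n : K) := by
      rw [hs, hk]
      push_cast
      rfl
    have hQ : IsQuad n K := ⟨h6, s, h9⟩
    exact (class_KG hsq hneg h3 h7 K h6 ⟨s, h9⟩).1
      ((criterion H h K hQ).2.2.2.2.2.2.2.2.2 (hP K hQ))
  · intro hF K _ _ hQ
    exact (criterion H h K hQ).2.2.2.2.2.2.2.2.1 ((class_KG hsq hneg h3 h7 K hQ.1 hQ.2).2 hF)

lemma mod_iff (n : ℕ) : n % 21 ∈ (Finset.range 21).filter (fun r =>
      r % 3 ≠ 2 ∧ (r % 7 = 0 ∨ r % 7 = 3 ∨ r % 7 = 5 ∨ r % 7 = 6)) ↔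
      (n % 3 ≠ 2 ∧ (n % 7 = 0 ∨ n % 7 = 3 ∨ n % 7 = 5 ∨ n % 7 = 6)) := by
  rw [Finset.mem_filter, Finset.mem_range]
  have h1 : n % 21 % 3 = n % 3 := Nat.mod_mod_of_dvd n (by norm_num)
  have h2 : n % 21 % 7 = n % 7 := Nat.mod_mod_of_dvd n (by norm_num)
  rw [h1, h2]
  exact ⟨fun h => h.2, fun h => ⟨Nat.mod_lt _ (by norm_num), h⟩⟩

lemma count_inst {Q : ℕ → Prop} [DecidablePred Q] (X : ℕ) :
    ((Icc 1 X).filter Q).card = count Q X := by
  unfold count
  congr

lemma count_le {Q Q' : ℕ → Prop} {X : ℕ} (h : ∀ n, Q n → Q' n) : count Q X ≤ count Q' X := by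
  unfold count
  refine card_le_card fun n hn => ?_
  rw [mem_filter] at hn ⊢
  exact ⟨hn.1, h n hn.2⟩

lemma count_add {Q Q' Q'' : ℕ → Prop} {X : ℕ} (h : ∀ n, Q n → Q' n ∨ Q'' n) :
    count Q X ≤ count Q' X + count Q'' X := by
  unfold count
  refine (card_le_card ?_).trans (card_union_le _ _)
  intro n hn
  rw [mem_filter] at hn
  rw [mem_union, mem_filter, mem_filter]
  exact (h n hn.2).imp (fun h => ⟨hn.1, h⟩) (fun h => ⟨hn.1, h⟩)

lemma count_congr {Q Q' : ℕ → Prop} {X : ℕ} (h : ∀ n, Q n ↔ Q' n) : count Q X = count Q' X :=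
  le_antisymm (count_le fun n => (h n).1) (count_le fun n => (h n).2)

/-- the family with `n = 3` -/
def Fam0 (n : ℕ) : Prop :=
  FundNeg n ∧ n % 3 ≠ 2 ∧ (n % 7 = 0 ∨ n % 7 = 3 ∨ n % 7 = 5 ∨ n % 7 = 6)

lemma fam_iff (n : ℕ) : Fam0 n ↔ (Family n ∨ n = 3) := by
  unfold Fam0 Family
  constructor
  · intro h
    by_cases h3 : n = 3
    · exact Or.inr h3
    · exact Or.inl ⟨h.1, h3, h.2⟩
  · rintro (h | rfl)
    · exact ⟨h.1, h.2.2⟩
    · exact ⟨Or.inl ⟨Nat.prime_three.squarefree, by norm_num⟩, by norm_num, by norm_num⟩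

lemma low_family : ∃ (c : ℝ) (X₁ : ℕ), 0 < c ∧ ∀ X : ℕ, X₁ ≤ X → c * X ≤ (count Family X : ℝ) := by
  obtain ⟨c, X₁, hc, h⟩ := Pool.Agent.N916.AM.low (M := 84) (n₀ := 7) (by norm_num) (by norm_num)
    (by norm_num : Nat.Prime 7).squarefree
  refine ⟨c, X₁, hc, fun X hX => (h X hX).trans ?_⟩
  rw [count_inst]
  refine Nat.cast_le.2 (count_le fun n hn => ?_)
  refine ⟨Or.inl ⟨hn.1, ?_⟩, ?_, ?_, ?_⟩ <;> have := hn.2 <;> omega

lemma count_one {Q : ℕ → Prop} (h : ∀ a b, Q a → Q b → a = b) (X : ℕ) : count Q X ≤ 1 := by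
  unfold count
  refine Finset.card_le_one.2 fun a ha b hb => ?_
  exact h a b (Finset.mem_filter.1 ha).2 (Finset.mem_filter.1 hb).2

lemma count_three (X : ℕ) : count (fun n => n = 3) X ≤ 1 :=
  count_one (fun _ _ h1 h2 => h1.trans h2.symm) X

/-- the density without the condition on the number of the prime factors -/
lemma dens0 (H : Hyps) : Tendsto (fun X : ℕ => (count (fun n => Family n ∧ Proved n) X : ℝ) /
    (count Family X : ℝ)) atTop (𝓝 (∏' i : ℕ, (1 - (1 / 2 : ℝ) ^ (i + 1)))) := by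
  have h := Pool.Agent.N916.AM.density_mod (m := 21) (by norm_num)
    (R := (Finset.range 21).filter fun r =>
      r % 3 ≠ 2 ∧ (r % 7 = 0 ∨ r % 7 = 3 ∨ r % 7 = 5 ∨ r % 7 = 6)) (n₀ := 7)
    (by norm_num : Nat.Prime 7).squarefree (by norm_num) (by decide)
  unfold Pool.Agent.N916.GB.eta at h
  obtain ⟨c, X₁, hc, hlow⟩ := low_family
  have h1 : Tendsto (fun X : ℕ => (count (fun n => Fam0 n ∧ Pool.Agent.N916.TE.Go n) X : ℝ) /
      (count Fam0 X : ℝ)) atTop (𝓝 (∏' i : ℕ, (1 - (1 / 2 : ℝ) ^ (i + 1)))) := by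
    refine h.congr fun X => congrArg₂ (fun a b : ℕ => (a : ℝ) / (b : ℝ)) ?_ ?_
    · rw [count_inst]
      refine count_congr fun n => ?_
      rw [mod_iff]
      exact ⟨fun h => ⟨⟨h.1, h.2.1⟩, h.2.2⟩, fun h => ⟨h.1.1, h.1.2, h.2⟩⟩
    · rw [count_inst]
      refine count_congr fun n => ?_
      rw [mod_iff]
      exact Iff.rfl
  have hc1 : ∀ X, count Family X ≤ count Fam0 X := fun X =>
    count_le fun n hn => (fam_iff n).2 (Or.inl hn)
  have hc2 : ∀ X, count Fam0 X ≤ count Family X + 1 := fun X =>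
    (count_add (Q' := Family) (Q'' := fun n => n = 3) fun n hn => (fam_iff n).1 hn).trans
      (Nat.add_le_add_left (count_three X) _)
  have hc3 : ∀ X, count (fun n => Family n ∧ Proved n) X ≤
      count (fun n => Fam0 n ∧ Pool.Agent.N916.TE.Go n) X := fun X =>
    count_le fun n hn => ⟨(fam_iff n).2 (Or.inl hn.1), (proved_iff H hn.1).1 hn.2⟩
  have hc4 : ∀ X, count (fun n => Fam0 n ∧ Pool.Agent.N916.TE.Go n) X ≤
      count (fun n => Family n ∧ Proved n) X + 1 := fun X =>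
    (count_add (Q' := fun n => Family n ∧ Proved n) (Q'' := fun n => n = 3) fun n hn => by
      rcases (fam_iff n).1 hn.1 with h | h
      · exact Or.inl ⟨h, (proved_iff H h).2 hn.2⟩
      · exact Or.inr h).trans (Nat.add_le_add_left (count_three X) _)
  exact Pool.Agent.N637.K21.lim_one h1 hc hlow hc1 hc2 hc3 hc4

/-- the density, with many prime factors -/
lemma dens_B (H : Hyps) (B : ℕ) : Tendsto (fun X : ℕ =>
    (count (fun n => Family n ∧ Proved n ∧ B ≤ t n - 1) X : ℝ) / (count Family X : ℝ)) atTop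
    (𝓝 eta) := by
  obtain ⟨c, X₁, hc, hlow⟩ := low_family
  refine Pool.Agent.N637.K21.lim_few (g := fun X => count (fun n => Family n ∧ Proved n) X)
    (dens0 H) hc hlow (fun X => ?_) (fun ε hε => ?_)
  · exact count_le fun n hn => ⟨hn.1, hn.2.1⟩
  · obtain ⟨X₀, h⟩ := Pool.Agent.N637.K21.few (B + 2) ε hε
    refine ⟨X₀, fun X hX => ?_⟩
    have h1 := h X hX
    rw [count_inst] at h1
    have h2 : count (fun n => Family n ∧ Proved n) X ≤
        count (fun n => Family n ∧ Proved n ∧ B ≤ t n - 1) X +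
        count (fun n => Pool.Agent.N916.TE.FD n ∧ n.primeFactors.card < B + 2) X := by
      refine count_add fun n hn => ?_
      by_cases hB : B ≤ t n - 1
      · exact Or.inl ⟨hn.1, hn.2, hB⟩
      · right
        refine ⟨hn.1.1, ?_⟩
        have h5 : (n.primeFactors.erase 3).card < B + 1 := by
          have h6 : ¬ B ≤ (n.primeFactors.erase 3).card - 1 := hB
          omega
        have h6 := Finset.pred_card_le_card_erase (s := n.primeFactors) (a := 3)
        omega
    have h3 : (count (fun n => Family n ∧ Proved n) X : ℝ) ≤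
        count (fun n => Family n ∧ Proved n ∧ B ≤ t n - 1) X +
        count (fun n => Pool.Agent.N916.TE.FD n ∧ n.primeFactors.card < B + 2) X := by
      exact_mod_cast h2
    linarith

/-- the size of the family -/
lemma dens_fam (hD : U_DENS) : Tendsto (fun X : ℕ => (count Family X : ℝ) / X) atTop
    (𝓝 (135 / (128 * Real.pi ^ 2))) := by
  have h1 : Tendsto (fun X : ℕ => (count Fam0 X : ℝ) / X) atTop
      (𝓝 (135 / (128 * Real.pi ^ 2))) := by
    refine Tendsto.congr (fun X => ?_) hD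
    rw [count_inst]
    rfl
  have h2 : Tendsto (fun X : ℕ => ((count Fam0 X : ℝ) - count Family X) / X) atTop (𝓝 0) := by
    refine squeeze_zero' (g := fun X : ℕ => 1 / (X : ℝ)) ?_ ?_ tendsto_one_div_atTop_nhds_zero_nat
    · filter_upwards [eventually_gt_atTop 0] with X hX
      have : (count Family X : ℝ) ≤ count Fam0 X :=
        Nat.cast_le.2 (count_le fun n hn => (fam_iff n).2 (Or.inl hn))
      exact div_nonneg (by linarith) (by positivity)
    · filter_upwards [eventually_gt_atTop 0] with X hX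
      have h3 : count Fam0 X ≤ count Family X + 1 :=
        (count_add (Q' := Family) (Q'' := fun n => n = 3) fun n hn => (fam_iff n).1 hn).trans
          (Nat.add_le_add_left (count_three X) _)
      have h4 : (count Fam0 X : ℝ) ≤ count Family X + 1 := by exact_mod_cast h3
      exact div_le_div_of_nonneg_right (by linarith) (by positivity)
  have h3 := h1.sub h2
  rw [sub_zero] at h3
  refine h3.congr fun X => ?_
  rw [← sub_div]
  congr 1
  ring

/-- all the imaginary quadratic fields -/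
lemma dens_all : Tendsto (fun X : ℕ => (count FundNeg X : ℝ) / X) atTop
    (𝓝 (3 / Real.pi ^ 2)) := by
  refine Tendsto.congr (fun X => ?_) Pool.Agent.N873.F15.Dn.dens_disc
  rw [Pool.Agent.N873.F15.Dn.cnt_congr (fun n hn => Pool.Agent.N873.F15.Dn.isDisc_iff hn) X,
    Pool.Agent.N873.F15.Dn.cnt_filter, count_inst]
  rfl

lemma dens_tot (hD : U_DENS) (H : Hyps) (B : ℕ) : Tendsto (fun X : ℕ =>
    (count (fun n => Family n ∧ Proved n ∧ B ≤ t n - 1) X : ℝ) / (count FundNeg X : ℝ)) atTop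
    (𝓝 (45 * eta / 128)) := by
  have hpi := Real.pi_ne_zero
  have hpi0 := Real.pi_pos
  have h := (dens_B H B).mul ((dens_fam hD).div dens_all (by positivity))
  have e : eta * (135 / (128 * Real.pi ^ 2) / (3 / Real.pi ^ 2)) = 45 * eta / 128 := by
    field_simp
    ring
  rw [e] at h
  have hpos : (0 : ℝ) < 135 / (128 * Real.pi ^ 2) := by positivity
  have hev := (dens_fam hD).eventually (lt_mem_nhds hpos)
  refine h.congr' ?_
  filter_upwards [hev, eventually_gt_atTop 0] with X hX hX0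
  have h0 : (count Family X : ℝ) ≠ 0 := by
    intro h1
    rw [h1, zero_div] at hX
    exact lt_irrefl _ hX
  have hX1 : (X : ℝ) ≠ 0 := by exact_mod_cast hX0.ne'
  show (count (fun n => Family n ∧ Proved n ∧ B ≤ t n - 1) X : ℝ) / (count Family X : ℝ) *
    (((count Family X : ℝ) / X) / ((count FundNeg X : ℝ) / X)) = _
  field_simp

/-- a field for each order of `Ш` -/
lemma inf_k (hI : U_INF) (H : Hyps) (k : ℕ) :
    {n : ℕ | Family n ∧ t n = k + 1 ∧ Proved n}.Infinite := by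
  refine (hI k).mono ?_
  rintro n ⟨h1, h2, h3, h4⟩
  have hF : Family n := ⟨h1.1, by omega, h1.2⟩
  refine ⟨hF, ?_, (proved_iff H hF).2 h4⟩
  unfold t
  rw [Finset.erase_eq_of_notMem, h3]
  intro h5
  have := (Nat.mem_primeFactors.1 h5).2.1
  omega

end proof

/-- **Main theorem.** The statement `Criterion n K` holds for all the imaginary quadratic fields
`K = ℚ(√-n)` of the family. For every `B` the 2-part of the conjecture holds for `X_0(21)` over `ℚ(√-n)`,
with `Ш[2^∞]` of dimension `2 (t - 1) ≥ 2 B` over the field with two elements, for a set of `n` of natural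
density exactly `η = ∏_{i ≥ 1} (1 - 2^{-i})` in the family, and `45 η / 128` among all the imaginary
quadratic fields; and for every `k` it holds with `#Ш[2^∞] = 4 ^ k` for infinitely many fields. -/
theorem result :
    (∀ n : ℕ, Family n → ∀ (K : Type) [Field K] [NumberField K], IsQuad n K → Criterion n K) ∧
    (0.2887 < eta ∧ eta < 0.2889) ∧
    (∀ B : ℕ, Tendsto (fun X : ℕ => (count (fun n => Family n ∧ Proved n ∧ B ≤ t n - 1) X : ℝ) /
        (count Family X : ℝ)) atTop (𝓝 eta) ∧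
      Tendsto (fun X : ℕ => (count (fun n => Family n ∧ Proved n ∧ B ≤ t n - 1) X : ℝ) /
        (count FundNeg X : ℝ)) atTop (𝓝 (45 * eta / 128))) ∧
    ∀ k : ℕ, {n : ℕ | Family n ∧ t n = k + 1 ∧ Proved n}.Infinite :=
  ⟨fun n hn K _ _ hQ => criterion (hyps) hn K hQ, Pool.Agent.N916.GB.eta_bounds,
    fun B => ⟨dens_B (hyps) B, dens_tot Pool.Agent.N340.K21.t_DENS (hyps) B⟩,
    inf_k Pool.Agent.N966.K21.t_INF (hyps)⟩

end Pool.Agent.Results.MP_1a91b9_nt.TwoPartX21Imaginary
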